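import Pool.Agent.Helper184.KM.Rot

/-!
Amplification by rotations: failure of a weak type bound produces small functions whose maximal
function is large at almost all directions.
-/

open MeasureTheory Set Metric Filter
open scoped ENNReal NNReal Topology

namespace Pool.Agent.Helper184.KM

open Pool.Agent.TH705.RR (On act act_apply act_cont act_trans)

/-- Euclidean space of dimension `d + 1` -/
abbrev Eu (d : ℕ) := EuclideanSpace ℝ (Fin (d + 1))

variable {d : ℕ}

theorem sig_univ_ne (d : ℕ) : sig (d + 1) univ ≠ 0 := by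
  unfold sig
  rw [Measure.toSphere_apply_univ]
  refine mul_ne_zero ?_ ?_
  · simp
  · exact (measure_ball_pos _ _ one_pos).ne'

instance (d : ℕ) : Nonempty (sphere (0 : EuclideanSpace ℝ (Fin (d + 1))) 1) :=
  ⟨⟨e0 d, by simp [norm_e0]⟩⟩

/-- weak type bound with a weight -/
def Weak (d : ℕ) (w : ℝ → ℝ≥0∞) (p : ℝ) : Prop :=
  ∃ C : ℝ≥0, ∀ δ : ℝ, 0 < δ → δ < 1 → ∀ g : Eu d → ℝ, Measurable g →
    sig (d + 1) {e | 1 < w δ * Mx δ g (e : Eu d)} ≤ C * ∫⁻ y, ‖g y‖ₑ ^ p

theorem exists_env {p : ℝ} (hp : 1 ≤ p) {g : Eu d → ℝ} (hg : Measurable g)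
    (L : List (On (d + 1))) :
    ∃ G : Eu d → ℝ, Measurable G ∧
      (∀ k ∈ L, ∀ y, ‖g ((act (d + 1) k).symm y)‖ₑ ≤ ‖G y‖ₑ) ∧
      ∫⁻ y, ‖G y‖ₑ ^ p ≤ (L.length : ℝ≥0∞) * ∫⁻ y, ‖g y‖ₑ ^ p := by
  induction L with
  | nil =>
    refine ⟨fun _ => 0, measurable_const, by simp, ?_⟩
    have : (0 : ℝ) < p := by linarith
    simp [this]
  | cons k L ih =>
    obtain ⟨G, hG, h1, h2⟩ := ih
    have hmk : Measurable fun y => g ((act (d + 1) k).symm y) :=
      hg.comp (act (d + 1) k).symm.continuous.measurable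
    refine ⟨fun y => max |g ((act (d + 1) k).symm y)| |G y|, ?_, ?_, ?_⟩
    · exact (continuous_abs.measurable.comp hmk).max (continuous_abs.measurable.comp hG)
    · intro k' hk' y
      have e1 : ‖max |g ((act (d + 1) k).symm y)| |G y|‖ₑ =
          max ‖g ((act (d + 1) k).symm y)‖ₑ ‖G y‖ₑ := by
        rcases le_total |g ((act (d + 1) k).symm y)| |G y| with h | h
        · rw [max_eq_right h, Real.enorm_abs, max_eq_right]
          rw [← Real.enorm_abs (G y), ← Real.enorm_abs (g _), enorm_le_iff_norm_le]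
          simpa using h
        · rw [max_eq_left h, Real.enorm_abs, max_eq_left]
          rw [← Real.enorm_abs (G y), ← Real.enorm_abs (g _), enorm_le_iff_norm_le]
          simpa using h
      rw [e1]
      rcases List.mem_cons.1 hk' with rfl | h
      · exact le_max_left _ _
      · exact (h1 k' h y).trans (le_max_right _ _)
    · have h3 : ∫⁻ y, ‖g ((act (d + 1) k).symm y)‖ₑ ^ p = ∫⁻ y, ‖g y‖ₑ ^ p := by
        have := (act (d + 1) k).symm.measurePreserving.lintegral_comp_emb
          (act (d + 1) k).symm.toHomeomorph.measurableEmbedding (fun y => ‖g y‖ₑ ^ p)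
        exact this
      calc ∫⁻ y, ‖max |g ((act (d + 1) k).symm y)| |G y|‖ₑ ^ p
          ≤ ∫⁻ y, (‖g ((act (d + 1) k).symm y)‖ₑ ^ p + ‖G y‖ₑ ^ p) := by
            refine lintegral_mono fun y => ?_
            rcases le_total |g ((act (d + 1) k).symm y)| |G y| with h | h
            · simp only [max_eq_right h, Real.enorm_abs]
              exact le_add_left le_rfl
            · simp only [max_eq_left h, Real.enorm_abs]
              exact le_add_right le_rfl
        _ = (∫⁻ y, ‖g ((act (d + 1) k).symm y)‖ₑ ^ p) + (∫⁻ y, ‖G y‖ₑ ^ p) :=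
            lintegral_add_left (hmk.enorm.pow_const p) _
        _ ≤ (∫⁻ y, ‖g y‖ₑ ^ p) + (L.length : ℝ≥0∞) * ∫⁻ y, ‖g y‖ₑ ^ p := by
            rw [h3]; gcongr
        _ = _ := by
            simp only [List.length_cons, Nat.cast_add, Nat.cast_one]
            ring

theorem Mx_ract {δ : ℝ} (g : Eu d → ℝ) (k : On (d + 1))
    (x : sphere (0 : EuclideanSpace ℝ (Fin (d + 1))) 1) :
    Mx δ (fun y => g ((act (d + 1) k).symm y)) (x : Eu d) = Mx δ g (ract k x : Eu d) := by
  have h1 := Mx_iso (act (d + 1) k) δ g (ract k x : Eu d)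
  have h2 : act (d + 1) k (ract k x : Eu d) = (x : Eu d) := by
    show act (d + 1) k (act (d + 1) k⁻¹ (x : Eu d)) = x
    have h3 : (act (d + 1) k * act (d + 1) k⁻¹) (x : Eu d) = x := by
      rw [← map_mul, mul_inv_cancel, map_one]; rfl
    exact h3
  rw [h2] at h1
  exact h1

theorem amplify {p : ℝ} (hp : 1 ≤ p) {w : ℝ → ℝ≥0∞} (h : ¬ Weak d w p) {κ η A : ℝ}
    (hκ : 0 < κ) (hη : 0 < η) (hA : 0 < A) :
    ∃ δ : ℝ, 0 < δ ∧ δ < 1 ∧ ∃ G : Eu d → ℝ, Measurable G ∧
      ∫⁻ y, ‖G y‖ₑ ^ p ≤ ENNReal.ofReal κ ∧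
      sig (d + 1) {e | w δ * Mx δ G (e : Eu d) ≤ ENNReal.ofReal A} ≤ ENNReal.ofReal η := by
  set s : ℝ := (sig (d + 1) univ).toReal with hs
  have hs0 : 0 < s := ENNReal.toReal_pos (sig_univ_ne d) (measure_ne_top _ _)
  set l : ℝ := s / η with hl
  have hl0 : 0 < l := by positivity
  set C : ℝ := A ^ p * (l + 1) * s / κ with hC
  have hC0 : 0 < C := by positivity
  unfold Weak at h
  push Not at h
  obtain ⟨δ, h0, h1, g, hg, hlt⟩ := h C.toNNReal
  set E : Set (sphere (0 : EuclideanSpace ℝ (Fin (d + 1))) 1) :=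
    {e | 1 < w δ * Mx δ g (e : Eu d)} with hE
  have hEm : MeasurableSet E :=
    measurableSet_lt measurable_const ((Mx_meas h0 hg.aemeasurable).const_mul _)
  set I : ℝ≥0∞ := ∫⁻ y, ‖g y‖ₑ ^ p with hI
  have hCn : (C.toNNReal : ℝ≥0∞) ≠ 0 := by
    have : C.toNNReal ≠ 0 := (Real.toNNReal_pos.2 hC0).ne'
    exact_mod_cast this
  have hIfin : I ≠ ∞ := by
    intro hcon
    rw [hcon, ENNReal.mul_top hCn] at hlt
    exact absurd hlt (not_lt.2 le_top)
  set t : ℝ := (sig (d + 1) E).toReal with ht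
  have hlt' : C * I.toReal < t := by
    have := (ENNReal.toReal_lt_toReal (ENNReal.mul_ne_top ENNReal.coe_ne_top hIfin)
      (measure_ne_top _ _)).2 hlt
    rw [ENNReal.toReal_mul, ENNReal.coe_toReal, Real.coe_toNNReal _ hC0.le] at this
    exact this
  have ht0 : 0 < t := lt_of_le_of_lt (by positivity) hlt'
  have hts : t ≤ s := ENNReal.toReal_mono (measure_ne_top _ _) (measure_mono (subset_univ _))
  set N : ℕ := ⌈l * s / t⌉₊ with hN
  have hN1 : l * s / t ≤ N := Nat.le_ceil _
  have hN2 : (N : ℝ) < l * s / t + 1 := Nat.ceil_lt_add_one (by positivity)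
  obtain ⟨L, hLN, hLm⟩ := cover_list hEm inferInstance (sig_univ_ne d) N
  obtain ⟨G, hG, hG1, hG2⟩ := exists_env hp hg L
  refine ⟨δ, h0, h1, fun y => A * G y, hG.const_mul A, ?_, ?_⟩
  · have e1 : ∫⁻ y, ‖A * G y‖ₑ ^ p = ‖A‖ₑ ^ p * ∫⁻ y, ‖G y‖ₑ ^ p := by
      rw [← lintegral_const_mul _ (hG.enorm.pow_const p)]
      refine lintegral_congr fun y => ?_
      rw [enorm_mul, ENNReal.mul_rpow_of_nonneg _ _ (by linarith)]
    rw [e1]
    have e2 : ‖A‖ₑ ^ p = ENNReal.ofReal (A ^ p) := by
      rw [Real.enorm_eq_ofReal hA.le, ENNReal.ofReal_rpow_of_nonneg hA.le (by linarith)]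
    rw [e2]
    calc ENNReal.ofReal (A ^ p) * ∫⁻ y, ‖G y‖ₑ ^ p
        ≤ ENNReal.ofReal (A ^ p) * ((L.length : ℝ≥0∞) * I) := by gcongr
      _ = ENNReal.ofReal (A ^ p * (N * I.toReal)) := by
          rw [ENNReal.ofReal_mul (by positivity), ENNReal.ofReal_mul (by positivity),
            ENNReal.ofReal_toReal hIfin, hLN, ENNReal.ofReal_natCast]
      _ ≤ ENNReal.ofReal κ := by
          refine ENNReal.ofReal_le_ofReal ?_
          have a1 : (N : ℝ) * I.toReal ≤ (l * s / t + 1) * (t / C) := by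
            have : I.toReal ≤ t / C := by rw [le_div_iff₀ hC0]; linarith
            have hI0 : 0 ≤ I.toReal := ENNReal.toReal_nonneg
            have hN0 : (0 : ℝ) ≤ l * s / t + 1 := by positivity
            gcongr
          have a2 : (l * s / t + 1) * (t / C) = (l * s + t) / C := by
            field_simp
          calc A ^ p * (N * I.toReal) ≤ A ^ p * ((l * s + t) / C) := by
                rw [← a2]; gcongr
            _ ≤ A ^ p * ((l * s + s) / C) := by gcongr
            _ = κ := by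
                rw [hC]
                field_simp
  · have hsub : {e : sphere (0 : EuclideanSpace ℝ (Fin (d + 1))) 1 |
        w δ * Mx δ (fun y => A * G y) (e : Eu d) ≤ ENNReal.ofReal A} ⊆
        {x | ∀ k ∈ L, ract k x ∉ E} := by
      intro x hx k hk hkE
      have hx' : w δ * Mx δ (fun y => A * G y) (x : Eu d) ≤ ENNReal.ofReal A := hx
      have b1 : 1 < w δ * Mx δ g (ract k x : Eu d) := hkE
      rw [← Mx_ract g k x] at b1
      have b2 : 1 < w δ * Mx δ G (x : Eu d) := by
        refine b1.trans_le ?_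
        gcongr
        exact Mx_mono (hG1 k hk) _
      have b3 : w δ * Mx δ (fun y => A * G y) (x : Eu d) =
          ENNReal.ofReal A * (w δ * Mx δ G (x : Eu d)) := by
        rw [Mx_smul, Real.enorm_eq_ofReal hA.le]
        ring
      rw [b3] at hx'
      have hA0 : ENNReal.ofReal A ≠ 0 := (ENNReal.ofReal_pos.2 hA).ne'
      have b4 : w δ * Mx δ G (x : Eu d) ≤ 1 := by
        have := hx'
        rw [← mul_one (ENNReal.ofReal A), mul_assoc, one_mul] at this
        exact (ENNReal.mul_le_mul_iff_right hA0 ENNReal.ofReal_ne_top).1 this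
      exact absurd b2 (not_lt.2 b4)
    refine (measure_mono hsub).trans ?_
    rw [ENNReal.le_ofReal_iff_toReal_le (measure_ne_top _ _) hη.le]
    refine hLm.trans ?_
    have c0 : 0 ≤ 1 - t / s := by
      rw [sub_nonneg, div_le_one hs0]; exact hts
    have c1 : (1 - t / s) ^ N ≤ Real.exp (-l) := by
      calc (1 - t / s) ^ N ≤ (Real.exp (-(t / s))) ^ N := by
            gcongr
            have := Real.add_one_le_exp (-(t / s))
            linarith
        _ = Real.exp (-(N * (t / s))) := by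
            rw [← Real.exp_nat_mul]; congr 1; ring
        _ ≤ Real.exp (-l) := by
            refine Real.exp_le_exp.2 (neg_le_neg ?_)
            calc l = l * s / t * (t / s) := by field_simp
              _ ≤ N * (t / s) := by gcongr
    have c2 : Real.exp (-l) ≤ 1 / l := by
      rw [Real.exp_neg, one_div]
      gcongr
      have := Real.add_one_le_exp l
      linarith
    calc s * (1 - t / s) ^ N ≤ s * (1 / l) := by
          gcongr
          exact c1.trans c2
      _ = η := by rw [hl]; field_simp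

end Pool.Agent.Helper184.KM
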