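import Pool.Agent.Helper184.KM.WS

/-!
Finiteness almost everywhere from weak bounds, and the category theorem when they fail.
-/

open MeasureTheory Set Metric Filter
open scoped ENNReal NNReal Topology

namespace Pool.Agent.Helper184.KM

variable {d : ℕ}

theorem Mx_dyadic {K : ℝ≥0} (hK : ∀ δ : ℝ, V d (2 * δ) ≤ K * V d δ) {δ δ' : ℝ} (h0 : 0 < δ)
    (h1 : δ ≤ δ') (h2 : δ' ≤ 2 * δ) (h3 : δ' ≤ 1) (f : Eu d → ℝ) {e : Eu d} (he : ‖e‖ = 1) :
    Mx δ f e ≤ K * Mx δ' f e := by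
  rw [Mx_eq f he, Mx_eq f he, div_eq_mul_inv, div_eq_mul_inv]
  have hVV : V d δ' ≤ K * V d δ := (V_mono h2).trans (hK δ)
  have hV0 : V d δ' ≠ 0 := V_pos (h0.trans_le h1) h3
  have hW0 : V d δ ≠ 0 := V_pos h0 (h1.trans h3)
  have hW1 : V d δ ≠ ∞ := V_fin h0 (h1.trans h3)
  have hK0 : (K : ℝ≥0∞) ≠ 0 := by
    intro hcon
    rw [hcon, zero_mul] at hVV
    exact hV0 (le_antisymm hVV bot_le)
  have hinv : (V d δ)⁻¹ ≤ K * (V d δ')⁻¹ := by
    have h4 : (K * V d δ)⁻¹ ≤ (V d δ')⁻¹ := ENNReal.inv_le_inv.2 hVV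
    rw [ENNReal.mul_inv (Or.inl hK0) (Or.inl ENNReal.coe_ne_top)] at h4
    calc (V d δ)⁻¹ = K * ((K : ℝ≥0∞)⁻¹ * (V d δ)⁻¹) := by
          rw [← mul_assoc, ENNReal.mul_inv_cancel hK0 ENNReal.coe_ne_top, one_mul]
      _ ≤ K * (V d δ')⁻¹ := by gcongr
  have hsup : (⨆ a : Eu d, ∫⁻ y in tube δ a e, ‖f y‖ₑ) ≤
      ⨆ a : Eu d, ∫⁻ y in tube δ' a e, ‖f y‖ₑ := by
    refine iSup_mono fun a => lintegral_mono_set fun y hy => ⟨hy.1, hy.2.trans h1⟩
  calc (⨆ a : Eu d, ∫⁻ y in tube δ a e, ‖f y‖ₑ) * (V d δ)⁻¹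
      ≤ (⨆ a : Eu d, ∫⁻ y in tube δ' a e, ‖f y‖ₑ) * (K * (V d δ')⁻¹) := by gcongr
    _ = K * ((⨆ a : Eu d, ∫⁻ y in tube δ' a e, ‖f y‖ₑ) * (V d δ')⁻¹) := by ring

theorem ae_of_weak {p γ ε : ℝ} (hp : 1 ≤ p) (hγ : 0 ≤ γ) (hε : 0 < ε) (h : Weak d (pw γ) p)
    {f : Eu d → ℝ} (hf : MemLp f (ENNReal.ofReal p) volume) :
    ∀ᵐ (e : sphere (0 : EuclideanSpace ℝ (Fin (d + 1))) 1) ∂(sig (d + 1)),
      (⨆ δ ∈ Ioo (0 : ℝ) 1, pw (γ + ε) δ * Mx δ f (e : Eu d)) < ∞ := by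
  obtain ⟨C, hC⟩ := h
  obtain ⟨K, hK⟩ := V_double d
  have hp0 : 0 < p := by linarith
  set g : Eu d → ℝ := hf.1.mk f with hg
  have hfg : f =ᵐ[volume] g := hf.1.ae_eq_mk
  have hgm : Measurable g := hf.1.stronglyMeasurable_mk.measurable
  have hM : ∀ (δ : ℝ) (e : sphere (0 : EuclideanSpace ℝ (Fin (d + 1))) 1),
      Mx δ f (e : Eu d) = Mx δ g (e : Eu d) := fun δ e => Mx_congr hfg _
  simp only [hM]
  have hgL : MemLp g (ENNReal.ofReal p) volume := (memLp_congr_ae hfg).1 hf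
  set t : ℝ≥0∞ := eLpNorm g (ENNReal.ofReal p) volume with ht
  have htfin : t ≠ ∞ := hgL.2.ne
  set A : ℕ → Set (sphere (0 : EuclideanSpace ℝ (Fin (d + 1))) 1) := fun j =>
    {e | 1 < pw (γ + ε) ((1 / 2) ^ (j + 1)) * Mx ((1 / 2) ^ (j + 1)) g (e : Eu d)} with hA
  have hAm : ∀ j, sig (d + 1) (A j) ≤ C * t ^ p * (pw (ε * p) (1 / 2)) ^ (j + 1) := fun j => by
    have hd0 : (0 : ℝ) < (1 / 2) ^ (j + 1) := by positivity
    have hd1 : ((1 : ℝ) / 2) ^ (j + 1) < 1 := pow_lt_one₀ (by norm_num) (by norm_num) (by omega)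
    have hlev := weak_level hp hC hd0 hd1 hgm
      (t := (((1 / 2 : ℝ) ^ (j + 1)) ^ ε)⁻¹) (by positivity)
    rw [lint_eq hp, ← ht, inv_inv] at hlev
    refine (measure_mono ?_).trans (hlev.trans (le_of_eq ?_))
    · intro e he
      have he' : 1 < pw (γ + ε) ((1 / 2) ^ (j + 1)) * Mx ((1 / 2) ^ (j + 1)) g (e : Eu d) := he
      show ENNReal.ofReal ((((1 / 2 : ℝ) ^ (j + 1)) ^ ε)⁻¹) <
        pw γ ((1 / 2) ^ (j + 1)) * Mx ((1 / 2) ^ (j + 1)) g (e : Eu d)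
      rw [pw_add hd0] at he'
      have hre : (0 : ℝ) < ((1 / 2 : ℝ) ^ (j + 1)) ^ ε := by positivity
      rw [ENNReal.ofReal_inv_of_pos hre]
      have hx : pw ε ((1 / 2) ^ (j + 1)) = ENNReal.ofReal (((1 / 2 : ℝ) ^ (j + 1)) ^ ε) := rfl
      rw [← hx]
      have hxp : pw ε ((1 / 2) ^ (j + 1)) ≠ 0 := pw_pos hd0
      have hxt : pw ε ((1 / 2) ^ (j + 1)) ≠ ∞ := pw_ne_top _ _
      have he2 : 1 < (pw γ ((1 / 2) ^ (j + 1)) * Mx ((1 / 2) ^ (j + 1)) g (e : Eu d)) *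
          pw ε ((1 / 2) ^ (j + 1)) := by
        calc 1 < _ := he'
          _ = _ := by ring
      rw [← one_div]
      exact (ENNReal.div_lt_iff (Or.inl hxp) (Or.inl hxt)).2 he2
    · have h5 : ENNReal.ofReal (((1 / 2 : ℝ) ^ (j + 1)) ^ ε) ^ p = (pw (ε * p) (1 / 2)) ^ (j + 1) := by
        unfold pw
        rw [ENNReal.ofReal_rpow_of_nonneg (by positivity) hp0.le,
          ← ENNReal.ofReal_pow (by positivity)]
        congr 1
        rw [Real.rpow_pow_comm (by norm_num)]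
        exact (Real.rpow_mul (by positivity) ε p).symm
      rw [h5]; ring
  have hsum : ∑' j, sig (d + 1) (A j) ≠ ∞ := by
    refine ne_top_of_le_ne_top ?_ (ENNReal.tsum_le_tsum hAm)
    rw [ENNReal.tsum_mul_left, ENNReal.tsum_geometric_add_one]
    have hr : pw (ε * p) (1 / 2) < 1 := by
      unfold pw
      rw [ENNReal.ofReal_lt_one]
      exact Real.rpow_lt_one (by norm_num) (by norm_num) (by positivity)
    have hr2 : (1 - pw (ε * p) (1 / 2))⁻¹ ≠ ∞ := ENNReal.inv_ne_top.2 (tsub_pos_of_lt hr).ne'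
    refine ENNReal.mul_ne_top (ENNReal.mul_ne_top ENNReal.coe_ne_top ?_)
      (ENNReal.mul_ne_top (pw_ne_top _ _) hr2)
    exact ENNReal.rpow_ne_top_of_nonneg hp0.le htfin
  filter_upwards [ae_eventually_notMem hsum] with e he
  obtain ⟨j0, hj0⟩ := eventually_atTop.1 he
  set B : ℝ≥0∞ := t * (1 + (V d ((1 / 2) ^ (j0 + 1)))⁻¹) with hB
  have hBfin : B < ∞ := by
    refine ENNReal.mul_lt_top htfin.lt_top (ENNReal.add_lt_top.2 ⟨ENNReal.one_lt_top, ?_⟩)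
    exact (ENNReal.inv_lt_top.2 (pos_iff_ne_zero.2 (V_pos (by positivity)
      (pow_le_one₀ (by norm_num) (by norm_num)))))
  refine lt_of_le_of_lt (b := max (K : ℝ≥0∞) B) ?_ (max_lt ENNReal.coe_lt_top hBfin)
  refine iSup₂_le fun δ hδ => ?_
  obtain ⟨h0, h1⟩ := hδ
  obtain ⟨j, hj1, hj2⟩ := exists_nat_pow_near_of_lt_one (x := δ) (y := 1 / 2) h0 h1.le
    (by norm_num) (by norm_num)
  have hγε : 0 ≤ γ + ε := by linarith
  by_cases hjj : j0 + 1 ≤ j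
  · refine le_trans ?_ (le_max_left _ _)
    obtain ⟨i, rfl⟩ : ∃ i, j = i + 1 := ⟨j - 1, by omega⟩
    have hi : e ∉ A i := hj0 i (by omega)
    have hi' : pw (γ + ε) ((1 / 2) ^ (i + 1)) * Mx ((1 / 2) ^ (i + 1)) g (e : Eu d) ≤ 1 :=
      not_lt.1 hi
    have hm := Mx_dyadic hK (δ := δ) (δ' := (1 / 2) ^ (i + 1)) h0 hj2
      (by rw [pow_succ] at hj1; linarith) (pow_le_one₀ (by norm_num) (by norm_num)) g
      (e := (e : Eu d)) (by simp)
    calc pw (γ + ε) δ * Mx δ g (e : Eu d)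
        ≤ pw (γ + ε) ((1 / 2) ^ (i + 1)) * (K * Mx ((1 / 2) ^ (i + 1)) g (e : Eu d)) := by
          gcongr
          unfold pw
          exact ENNReal.ofReal_le_ofReal (Real.rpow_le_rpow h0.le hj2 hγε)
      _ = K * (pw (γ + ε) ((1 / 2) ^ (i + 1)) * Mx ((1 / 2) ^ (i + 1)) g (e : Eu d)) := by ring
      _ ≤ K * 1 := by gcongr
      _ = K := mul_one _
  · refine le_trans ?_ (le_max_right _ _)
    have hd : (1 / 2 : ℝ) ^ (j0 + 1) ≤ δ := by
      refine le_trans ?_ hj1.le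
      exact pow_le_pow_of_le_one (by norm_num) (by norm_num) (by omega)
    calc pw (γ + ε) δ * Mx δ g (e : Eu d) ≤ 1 * (t * Bf d p δ) := by
          gcongr
          · exact pw_le_one hγε h0 h1
          · exact Mx_holder hp hgL.1 (by simp)
      _ ≤ 1 * (t * (1 + (V d δ)⁻¹)) := by
          gcongr
          exact Bf_le hp h0 h1.le
      _ ≤ B := by
          rw [one_mul, hB]
          gcongr
          exact V_mono hd

section baire

variable {p : ℝ} [hF : Fact (1 ≤ ENNReal.ofReal p)]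

/-- good functions at level `m` -/
def Um (d : ℕ) (p : ℝ) (w : ℝ → ℝ≥0∞) (m : ℕ) :
    Set (Lp ℝ (ENNReal.ofReal p) (volume : Measure (Eu d))) :=
  {f | ∃ δ : ℝ, 0 < δ ∧ δ < 1 ∧ ∃ η : ℝ, 0 < η ∧
    sig (d + 1) {e | w δ * Mx δ (⇑f) (e : Eu d) ≤ ENNReal.ofReal (m + η)} < (2⁻¹ : ℝ≥0∞) ^ m}

theorem Um_open (hp : 1 ≤ p) {w : ℝ → ℝ≥0∞} (hw : ∀ δ : ℝ, 0 < δ → δ < 1 → w δ ≤ 1) (m : ℕ) :
    IsOpen (Um d p w m) := by
  rw [Metric.isOpen_iff]
  rintro f ⟨δ, h0, h1, η, hη, hm⟩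
  have hBfin := Bf_fin (d := d) hp h0 h1.le
  set b : ℝ := (Bf d p δ).toReal with hb
  have hb0 : 0 ≤ b := ENNReal.toReal_nonneg
  have hbb : Bf d p δ = ENNReal.ofReal b := (ENNReal.ofReal_toReal hBfin).symm
  refine ⟨η / (2 * (b + 1)), by positivity, fun f' hf' => ⟨δ, h0, h1, η / 2, by positivity, ?_⟩⟩
  refine lt_of_le_of_lt (measure_mono ?_) hm
  intro e he
  have he' : w δ * Mx δ (⇑f') (e : Eu d) ≤ ENNReal.ofReal (m + η / 2) := he
  show w δ * Mx δ (⇑f) (e : Eu d) ≤ ENNReal.ofReal (m + η)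
  have hdist : dist f' f < η / (2 * (b + 1)) := hf'
  have hed : eLpNorm (⇑f - ⇑f') (ENNReal.ofReal p) volume ≤ ENNReal.ofReal (η / (2 * (b + 1))) := by
    rw [← Lp.edist_def, Lp.edist_dist, dist_comm]
    exact ENNReal.ofReal_le_ofReal hdist.le
  have hsplit : Mx δ (⇑f) (e : Eu d) ≤ Mx δ (⇑f - ⇑f') (e : Eu d) + Mx δ (⇑f') (e : Eu d) := by
    have h3 := Mx_add_le (δ := δ) (f := ⇑f - ⇑f') (g := ⇑f')
      ((Lp.aestronglyMeasurable f).sub (Lp.aestronglyMeasurable f')).aemeasurable (e : Eu d)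
    have h4 : (fun y => (⇑f - ⇑f') y + ⇑f' y) = ⇑f := by
      funext y; simp
    rw [h4] at h3
    exact h3
  calc w δ * Mx δ (⇑f) (e : Eu d)
      ≤ w δ * (Mx δ (⇑f - ⇑f') (e : Eu d) + Mx δ (⇑f') (e : Eu d)) := by gcongr
    _ = w δ * Mx δ (⇑f - ⇑f') (e : Eu d) + w δ * Mx δ (⇑f') (e : Eu d) := mul_add _ _ _
    _ ≤ 1 * (eLpNorm (⇑f - ⇑f') (ENNReal.ofReal p) volume * Bf d p δ) +
        ENNReal.ofReal (m + η / 2) := by
        gcongr
        · exact hw δ h0 h1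
        · exact Mx_holder hp ((Lp.aestronglyMeasurable f).sub (Lp.aestronglyMeasurable f'))
            (by simp)
    _ ≤ 1 * (ENNReal.ofReal (η / (2 * (b + 1))) * ENNReal.ofReal b) +
        ENNReal.ofReal (m + η / 2) := by
        rw [hbb]; gcongr
    _ = ENNReal.ofReal (η / (2 * (b + 1)) * b + (m + η / 2)) := by
        rw [one_mul, ← ENNReal.ofReal_mul (by positivity),
          ← ENNReal.ofReal_add (by positivity) (by positivity)]
    _ ≤ ENNReal.ofReal (m + η) := by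
        refine ENNReal.ofReal_le_ofReal ?_
        have : η / (2 * (b + 1)) * b ≤ η / 2 := by
          rw [div_mul_eq_mul_div, div_le_div_iff₀ (by positivity) (by norm_num)]
          nlinarith
        linarith

theorem Um_dense (hp : 1 ≤ p) {w : ℝ → ℝ≥0∞} (hw : ∀ δ : ℝ, 0 < δ → δ < 1 → w δ ≤ 1)
    (h : ¬ Weak d w p) (m : ℕ) : Dense (Um d p w m) := by
  rw [Metric.dense_iff]
  intro f r hr
  have hp0 : 0 < p := by linarith
  obtain ⟨u, hu1, hu2⟩ := (Lp.memLp f).exists_boundedContinuous_eLpNorm_sub_le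
    ENNReal.ofReal_ne_top (ε := ENNReal.ofReal (r / 3)) (ENNReal.ofReal_pos.2 (by positivity)).ne'
  set H : ℝ := ‖u‖ with hH
  have hH0 : 0 ≤ H := norm_nonneg _
  obtain ⟨δ, h0, h1, G, hG, hG1, hG2⟩ := amplify hp h (κ := (r / 3) ^ p)
    (η := (1 / 2) ^ m / 2) (A := m + 1 + H) (by positivity) (by positivity) (by positivity)
  have hGn : eLpNorm G (ENNReal.ofReal p) volume ≤ ENNReal.ofReal (r / 3) := by
    rw [lint_eq hp, ← ENNReal.ofReal_rpow_of_pos (by positivity)] at hG1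
    exact (ENNReal.rpow_le_rpow_iff hp0).1 hG1
  have hGL : MemLp G (ENNReal.ofReal p) volume :=
    ⟨hG.aestronglyMeasurable, lt_of_le_of_lt hGn ENNReal.ofReal_lt_top⟩
  have hsumL : MemLp (⇑u + G) (ENNReal.ofReal p) volume := hu2.add hGL
  refine ⟨hsumL.toLp, ?_, δ, h0, h1, 1, one_pos, ?_⟩
  · rw [mem_ball]
    have h3 : edist (hsumL.toLp) f ≤ ENNReal.ofReal (r / 3) + ENNReal.ofReal (r / 3) := by
      rw [Lp.edist_def]
      have h4 : eLpNorm (⇑hsumL.toLp - ⇑f) (ENNReal.ofReal p) volume =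
          eLpNorm (G + (⇑u - ⇑f)) (ENNReal.ofReal p) volume := by
        refine eLpNorm_congr_ae ?_
        filter_upwards [hsumL.coeFn_toLp] with y hy
        simp only [Pi.sub_apply, Pi.add_apply] at hy ⊢
        rw [hy]; ring
      rw [h4]
      refine (eLpNorm_add_le hG.aestronglyMeasurable (hu2.1.sub (Lp.aestronglyMeasurable f))
        hF.out).trans ?_
      refine add_le_add hGn ?_
      rw [eLpNorm_sub_comm]
      exact hu1
    rw [Lp.edist_dist, ← ENNReal.ofReal_add (by positivity) (by positivity),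
      ENNReal.ofReal_le_ofReal_iff (by positivity)] at h3
    linarith
  · refine lt_of_le_of_lt (b := ENNReal.ofReal ((1 / 2) ^ m / 2)) ?_ ?_
    · refine le_trans (measure_mono ?_) hG2
      intro e he
      have he' : w δ * Mx δ (⇑hsumL.toLp) (e : Eu d) ≤ ENNReal.ofReal (m + 1) := he
      show w δ * Mx δ G (e : Eu d) ≤ ENNReal.ofReal (m + 1 + H)
      rw [Mx_congr hsumL.coeFn_toLp] at he'
      have h5 : Mx δ G (e : Eu d) ≤ Mx δ (⇑u + G) (e : Eu d) + ENNReal.ofReal H := by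
        have h6 := Mx_add_le (δ := δ) (f := ⇑u + G) (g := fun y => -u y) hsumL.1.aemeasurable
          (e : Eu d)
        have h7 : (fun y => (⇑u + G) y + -u y) = G := by
          funext y; simp
        rw [h7] at h6
        refine h6.trans ?_
        gcongr
        refine Mx_bdd (fun y => ?_) _
        rw [enorm_neg, Real.enorm_eq_ofReal_abs]
        exact ENNReal.ofReal_le_ofReal (u.norm_coe_le_norm y)
      calc w δ * Mx δ G (e : Eu d) ≤ w δ * (Mx δ (⇑u + G) (e : Eu d) + ENNReal.ofReal H) := by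
            gcongr
        _ = w δ * Mx δ (⇑u + G) (e : Eu d) + w δ * ENNReal.ofReal H := mul_add _ _ _
        _ ≤ ENNReal.ofReal (m + 1) + 1 * ENNReal.ofReal H := by
            gcongr
            exact hw δ h0 h1
        _ = ENNReal.ofReal (m + 1 + H) := by
            rw [one_mul, ENNReal.ofReal_add (p := (m : ℝ) + 1) (by positivity) hH0]
    · have h8 : (2⁻¹ : ℝ≥0∞) ^ m = ENNReal.ofReal ((1 / 2) ^ m) := by
        rw [ENNReal.ofReal_pow (by norm_num), one_div, ENNReal.ofReal_inv_of_pos (by norm_num)]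
        norm_num
      rw [h8, ENNReal.ofReal_lt_ofReal_iff (by positivity)]
      have : (0 : ℝ) < (1 / 2) ^ m := by positivity
      linarith

theorem typical (hp : 1 ≤ p) {w : ℝ → ℝ≥0∞} (hw : ∀ δ : ℝ, 0 < δ → δ < 1 → w δ ≤ 1)
    (h : ¬ Weak d w p) :
    ∀ᶠ (f : Lp ℝ (ENNReal.ofReal p) (volume : Measure (Eu d))) in residual _,
      ∀ᵐ (e : sphere (0 : EuclideanSpace ℝ (Fin (d + 1))) 1) ∂(sig (d + 1)),
        (⨆ δ ∈ Ioo (0 : ℝ) 1, w δ * Mx δ (⇑f) (e : Eu d)) = ∞ := by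
  have h1 : ∀ᶠ f in residual (Lp ℝ (ENNReal.ofReal p) (volume : Measure (Eu d))),
      ∀ m : ℕ, f ∈ Um d p w m :=
    eventually_countable_forall.2 fun m =>
      residual_of_dense_open (Um_open hp hw m) (Um_dense hp hw h m)
  filter_upwards [h1] with f hf
  choose δ h0 h1 η hη hm using hf
  have hsum : ∑' m, sig (d + 1) {e | w (δ m) * Mx (δ m) (⇑f) (e : Eu d) ≤
      ENNReal.ofReal (m + η m)} ≠ ∞ := by
    refine ne_top_of_le_ne_top ?_ (ENNReal.tsum_le_tsum fun m => (hm m).le)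
    simp
  filter_upwards [ae_eventually_notMem hsum] with e he
  by_contra hcon
  obtain ⟨N, hN⟩ := ENNReal.exists_nat_gt hcon
  obtain ⟨M, hM⟩ := eventually_atTop.1 he
  have h2 := hM (max M N) (le_max_left _ _)
  have h3 : ENNReal.ofReal (((max M N : ℕ) : ℝ) + η (max M N)) <
      w (δ (max M N)) * Mx (δ (max M N)) (⇑f) (e : Eu d) := not_le.1 h2
  have h4 : (N : ℝ≥0∞) ≤ ENNReal.ofReal (((max M N : ℕ) : ℝ) + η (max M N)) := by
    rw [← ENNReal.ofReal_natCast]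
    refine ENNReal.ofReal_le_ofReal ?_
    have h5 : (N : ℝ) ≤ ((max M N : ℕ) : ℝ) := by exact_mod_cast le_max_right M N
    have := hη (max M N)
    linarith
  have h6 : w (δ (max M N)) * Mx (δ (max M N)) (⇑f) (e : Eu d) ≤
      ⨆ δ ∈ Ioo (0 : ℝ) 1, w δ * Mx δ (⇑f) (e : Eu d) :=
    le_iSup₂ (f := fun (δ : ℝ) (_ : δ ∈ Ioo (0 : ℝ) 1) => w δ * Mx δ (⇑f) (e : Eu d))
      (δ (max M N)) ⟨h0 _, h1 _⟩
  exact absurd (hN.trans_le (h4.trans (h3.le.trans h6))) (lt_irrefl _)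

end baire

end Pool.Agent.Helper184.KM
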