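import Pool.Agent.Helper184.KM.Cat

/-!
The critical exponent.
-/

open MeasureTheory Set Metric Filter
open scoped ENNReal NNReal Topology

namespace Pool.Agent.Helper184.KM

variable {d : ℕ}

/-- growth function -/
noncomputable def gr {n : ℕ} (γ : ℝ) (f : EuclideanSpace ℝ (Fin n) → ℝ)
    (e : EuclideanSpace ℝ (Fin n)) : ℝ≥0∞ :=
  ⨆ δ ∈ Ioo (0 : ℝ) 1, ENNReal.ofReal (δ ^ γ) * Mx δ f e

theorem gr_anti {n : ℕ} {γ γ' : ℝ} (h : γ ≤ γ') (f : EuclideanSpace ℝ (Fin n) → ℝ)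
    (e : EuclideanSpace ℝ (Fin n)) : gr γ' f e ≤ gr γ f e := by
  refine iSup₂_mono fun δ hδ => ?_
  gcongr ENNReal.ofReal ?_ * _
  exact Real.rpow_le_rpow_of_exponent_ge hδ.1 hδ.2.le h

theorem strong_mono {γ γ' p : ℝ} (h : γ ≤ γ') (hs : Strong d γ p) : Strong d γ' p := by
  obtain ⟨C, hC⟩ := hs
  refine ⟨C, fun f hf δ h0 h1 => (hC f hf δ h0 h1).trans ?_⟩
  gcongr C * ENNReal.ofReal ?_ * _
  exact Real.rpow_le_rpow_of_exponent_ge h0 h1.le (neg_le_neg h)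

/-- the trivial bound -/
theorem strong_trivial {p : ℝ} (hp : 1 ≤ p) : Strong d d p := by
  obtain ⟨κ, hκ, hlow⟩ := exists_low d
  have hp0 : 0 < p := by linarith
  set s : ℝ≥0 := (sig (d + 1) univ).toNNReal with hs
  have hs' : sig (d + 1) univ = s := (ENNReal.coe_toNNReal (measure_ne_top _ _)).symm
  refine ⟨(1 + κ⁻¹).toNNReal * s ^ (1 / p), fun f hf δ h0 h1 => ?_⟩
  have hB : Bf d p δ ≤ ENNReal.ofReal ((1 + κ⁻¹) * (δ ^ (-(d : ℝ)))) := by
    have hdp : 0 < κ * δ ^ d := by positivity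
    calc Bf d p δ ≤ 1 + (V d δ)⁻¹ := Bf_le hp h0 h1.le
      _ ≤ 1 + (ENNReal.ofReal (κ * δ ^ d))⁻¹ := by
          gcongr
          exact (hlow δ h0 h1.le).1
      _ = ENNReal.ofReal (1 + (κ * δ ^ d)⁻¹) := by
          rw [ENNReal.ofReal_add zero_le_one (inv_pos.2 hdp).le, ENNReal.ofReal_one,
            ENNReal.ofReal_inv_of_pos hdp]
      _ ≤ ENNReal.ofReal ((1 + κ⁻¹) * (δ ^ (-(d : ℝ)))) := by
          refine ENNReal.ofReal_le_ofReal ?_
          rw [mul_inv, add_mul, one_mul, Real.rpow_neg h0.le, Real.rpow_natCast]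
          gcongr
          exact (one_le_inv₀ (by positivity)).2 (pow_le_one₀ h0.le h1.le)
  set t := eLpNorm f (ENNReal.ofReal p) volume with ht
  set D : ℝ≥0∞ := t * ENNReal.ofReal ((1 + κ⁻¹) * (δ ^ (-(d : ℝ)))) with hD
  have hM : ∀ e : sphere (0 : EuclideanSpace ℝ (Fin (d + 1))) 1, Mx δ f (e : Eu d) ≤ D :=
    fun e => (Mx_holder hp hf.1 (by simp)).trans (by rw [hD]; gcongr)
  calc (∫⁻ e, (Mx δ f (e : Eu d)) ^ p ∂(sig (d + 1))) ^ (1 / p)
      ≤ (∫⁻ _e, D ^ p ∂(sig (d + 1))) ^ (1 / p) := by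
        gcongr with e
        exact hM e
    _ = D * (s : ℝ≥0∞) ^ (1 / p) := by
        rw [lintegral_const, hs', ENNReal.mul_rpow_of_nonneg _ _ (by positivity),
          ← ENNReal.rpow_mul, mul_one_div_cancel hp0.ne', ENNReal.rpow_one]
    _ = _ := by
        rw [hD, ENNReal.ofReal_mul (by positivity)]
        push_cast
        rw [ENNReal.coe_rpow_of_nonneg _ (by positivity : 0 ≤ 1 / p)]
        have : (((1 + κ⁻¹).toNNReal : ℝ≥0) : ℝ≥0∞) = ENNReal.ofReal (1 + κ⁻¹) := rfl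
        rw [this]
        ring

/-- the maximal inequality with exponent `β` up to `ε` -/
def MB (d : ℕ) (p β : ℝ) : Prop := ∀ ε : ℝ, 0 < ε → Strong d (β + ε) p

theorem MB_mono {p β β' : ℝ} (h : β ≤ β') (hb : MB d p β) : MB d p β' :=
  fun ε hε => strong_mono (by linarith) (hb ε hε)

theorem ae_of_MB {p β γ : ℝ} (hp : 1 ≤ p) (hβ : 0 ≤ β) (hγ : β < γ) (h : MB d p β)
    {f : Eu d → ℝ} (hf : MemLp f (ENNReal.ofReal p) volume) :
    ∀ᵐ (e : sphere (0 : EuclideanSpace ℝ (Fin (d + 1))) 1) ∂(sig (d + 1)),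
      gr γ f (e : Eu d) < ∞ := by
  have h1 : Weak d (pw (β + (γ - β) / 2)) p := weak_of_strong hp (h _ (by linarith))
  have h2 := ae_of_weak hp (by linarith : 0 ≤ β + (γ - β) / 2) (by linarith : 0 < (γ - β) / 2)
    h1 hf
  filter_upwards [h2] with e he
  have h3 : β + (γ - β) / 2 + (γ - β) / 2 = γ := by ring
  rw [h3] at he
  exact he

theorem typ_of_not {p β : ℝ} [Fact (1 ≤ ENNReal.ofReal p)] (hp : 1 ≤ p) (hβ : 0 ≤ β)
    (h : ¬ MB d p β) : ∃ γ : ℝ, β < γ ∧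
    ∀ᶠ (f : Lp ℝ (ENNReal.ofReal p) (volume : Measure (Eu d))) in residual _,
      ∀ᵐ (e : sphere (0 : EuclideanSpace ℝ (Fin (d + 1))) 1) ∂(sig (d + 1)),
        gr γ (⇑f) (e : Eu d) = ∞ := by
  unfold MB at h
  push Not at h
  obtain ⟨ε, hε, hs⟩ := h
  refine ⟨β + ε / 2, by linarith, ?_⟩
  refine typical hp (w := pw (β + ε / 2)) (fun δ h0 h1 => pw_le_one (by linarith) h0 h1)
    fun hw => hs ?_
  have := strong_of_weak hp (by linarith : 0 ≤ β + ε / 2) (by linarith : 0 < ε / 2) hw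
  have h3 : β + ε / 2 + ε / 2 = β + ε := by ring
  rwa [h3] at this

theorem critical (d : ℕ) (p : ℝ) [Fact (1 ≤ ENNReal.ofReal p)] :
    ∃ β : ℝ, 0 ≤ β ∧ β ≤ d ∧ (∀ β' : ℝ, 0 ≤ β' → (MB d p β' ↔ β ≤ β')) ∧
      (∀ f : Eu d → ℝ, MemLp f (ENNReal.ofReal p) volume →
        ∀ᵐ (e : sphere (0 : EuclideanSpace ℝ (Fin (d + 1))) 1) ∂(sig (d + 1)),
          ∀ γ : ℝ, β < γ → gr γ f (e : Eu d) < ∞) ∧
      (∀ᶠ (f : Lp ℝ (ENNReal.ofReal p) (volume : Measure (Eu d))) in residual _,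
        ∀ᵐ (e : sphere (0 : EuclideanSpace ℝ (Fin (d + 1))) 1) ∂(sig (d + 1)),
          ∀ γ : ℝ, 0 ≤ γ → γ < β → gr γ (⇑f) (e : Eu d) = ∞) := by
  have hp : 1 ≤ p := by
    have := (Fact.out : 1 ≤ ENNReal.ofReal p)
    rwa [ENNReal.one_le_ofReal] at this
  set S : Set ℝ := {β | 0 ≤ β ∧ MB d p β} with hS
  have hbdd : BddBelow S := ⟨0, fun β hβ => hβ.1⟩
  have hdS : (d : ℝ) ∈ S := ⟨Nat.cast_nonneg _, fun ε hε =>
    strong_mono (by linarith) (strong_trivial hp)⟩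
  set β : ℝ := sInf S with hβ
  have hβ0 : 0 ≤ β := le_csInf ⟨_, hdS⟩ fun b hb => hb.1
  have hMB : MB d p β := fun ε hε => by
    obtain ⟨b, hb, hlt⟩ := exists_lt_of_csInf_lt ⟨_, hdS⟩ (show sInf S < β + ε / 2 by linarith)
    exact strong_mono (by linarith) (hb.2 (ε / 2) (by linarith))
  have hiff : ∀ β' : ℝ, 0 ≤ β' → (MB d p β' ↔ β ≤ β') := fun β' hβ' =>
    ⟨fun h => csInf_le hbdd ⟨hβ', h⟩, fun h => MB_mono h hMB⟩
  refine ⟨β, hβ0, csInf_le hbdd hdS, hiff, ?_, ?_⟩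
  · intro f hf
    have h1 : ∀ᵐ (e : sphere (0 : EuclideanSpace ℝ (Fin (d + 1))) 1) ∂(sig (d + 1)),
        ∀ k : ℕ, gr (β + 1 / ((k : ℝ) + 1)) f (e : Eu d) < ∞ := by
      rw [ae_all_iff]
      intro k
      have hk : (0 : ℝ) < 1 / ((k : ℝ) + 1) := by positivity
      exact ae_of_MB hp hβ0 (by linarith) hMB hf
    filter_upwards [h1] with e he γ hγ
    obtain ⟨k, hk⟩ := exists_nat_one_div_lt (sub_pos.2 hγ)
    exact (gr_anti (by linarith) f _).trans_lt (he k)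
  · rcases hβ0.eq_or_lt with h0 | h0
    · refine Eventually.of_forall fun f => Eventually.of_forall fun e γ h1 h2 => ?_
      rw [← h0] at h2
      exact absurd h2 (not_lt.2 h1)
    · have h1 : ∀ᶠ (f : Lp ℝ (ENNReal.ofReal p) (volume : Measure (Eu d))) in residual _,
          ∀ k : ℕ, ∀ᵐ (e : sphere (0 : EuclideanSpace ℝ (Fin (d + 1))) 1) ∂(sig (d + 1)),
            gr (max 0 (β - 1 / ((k : ℝ) + 1))) (⇑f) (e : Eu d) = ∞ := by
        refine eventually_countable_forall.2 fun k => ?_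
        have hk : (0 : ℝ) < 1 / ((k : ℝ) + 1) := by positivity
        have hlt : max 0 (β - 1 / ((k : ℝ) + 1)) < β := max_lt h0 (by linarith)
        have hnot : ¬ MB d p (max 0 (β - 1 / ((k : ℝ) + 1))) := fun hcon =>
          absurd ((hiff _ (le_max_left _ _)).1 hcon) (not_le.2 hlt)
        obtain ⟨γ, hγ, hev⟩ := typ_of_not hp (le_max_left _ _) hnot
        filter_upwards [hev] with f hf
        filter_upwards [hf] with e he
        exact top_le_iff.1 (he.ge.trans (gr_anti hγ.le (⇑f) _))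
      filter_upwards [h1] with f hf
      filter_upwards [ae_all_iff.2 hf] with e he γ hγ0 hγ
      obtain ⟨k, hk⟩ := exists_nat_one_div_lt (sub_pos.2 hγ)
      refine top_le_iff.1 ((he k).ge.trans (gr_anti ?_ (⇑f) _))
      exact (by linarith : γ ≤ β - 1 / ((k : ℝ) + 1)).trans (le_max_right _ _)

theorem freq {β' : ℝ} {p : ℝ} [Fact (1 ≤ ENNReal.ofReal p)] (h0 : 0 ≤ β') :
    MB d p β' ↔ ∀ γ : ℝ, β' < γ →
      ∃ᶠ (f : Lp ℝ (ENNReal.ofReal p) (volume : Measure (Eu d))) in residual _,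
        ∃ᶠ (e : sphere (0 : EuclideanSpace ℝ (Fin (d + 1))) 1) in ae (sig (d + 1)),
          gr γ (⇑f) (e : Eu d) < ∞ := by
  have hp : 1 ≤ p := by
    have := (Fact.out : 1 ≤ ENNReal.ofReal p)
    rwa [ENNReal.one_le_ofReal] at this
  obtain ⟨β, hβ0, -, hiff, h1, h2⟩ := critical d p
  haveI : (ae (sig (d + 1))).NeBot := by
    rw [ae_neBot]
    intro hcon
    have := sig_univ_ne d
    rw [hcon] at this
    exact this (by simp)
  haveI : (residual (Lp ℝ (ENNReal.ofReal p) (volume : Measure (Eu d)))).NeBot := by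
    refine ⟨fun hbot => ?_⟩
    have h3 : (∅ : Set (Lp ℝ (ENNReal.ofReal p) (volume : Measure (Eu d)))) ∈ residual _ := by
      rw [hbot]; trivial
    have h4 := dense_of_mem_residual h3
    exact absurd h4.nonempty (by simp)
  constructor
  · intro hb γ hγ
    refine Eventually.frequently (Eventually.of_forall fun f => ?_)
    exact (ae_of_MB hp h0 hγ hb (Lp.memLp f)).frequently
  · intro h
    rw [hiff β' h0]
    by_contra hcon
    rw [not_le] at hcon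
    have h3 := h ((β' + β) / 2) (by linarith)
    refine h3 ?_
    filter_upwards [h2] with f hf
    rw [not_frequently]
    filter_upwards [hf] with e he
    rw [he ((β' + β) / 2) (by linarith) (by linarith)]
    simp

end Pool.Agent.Helper184.KM
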