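import Pool.Agent.Helper184.KM.Tube2

/-!
Covering the sphere by rotates of a set of directions.
-/

open MeasureTheory Set Metric Filter
open scoped ENNReal NNReal Topology Pointwise

namespace Pool.Agent.Helper184.KM

open Pool.Agent.TH705.RR (On act act_apply act_cont act_trans)

variable {n : ℕ}

/-- The surface measure on the unit sphere. -/
noncomputable def sig (n : ℕ) : Measure (sphere (0 : EuclideanSpace ℝ (Fin n)) 1) :=
  (volume : Measure (EuclideanSpace ℝ (Fin n))).toSphere

instance (n : ℕ) : IsFiniteMeasure (sig n) := by unfold sig; infer_instance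

/-- the action of an isometry on the sphere -/
noncomputable def rot (g : EuclideanSpace ℝ (Fin n) ≃ₗᵢ[ℝ] EuclideanSpace ℝ (Fin n))
    (x : sphere (0 : EuclideanSpace ℝ (Fin n)) 1) : sphere (0 : EuclideanSpace ℝ (Fin n)) 1 :=
  ⟨g x, by simp⟩

theorem rot_cont (g : EuclideanSpace ℝ (Fin n) ≃ₗᵢ[ℝ] EuclideanSpace ℝ (Fin n)) :
    Continuous (rot g) :=
  Continuous.subtype_mk (g.continuous.comp continuous_subtype_val) _

theorem sig_rot (g : EuclideanSpace ℝ (Fin n) ≃ₗᵢ[ℝ] EuclideanSpace ℝ (Fin n))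
    {A : Set (sphere (0 : EuclideanSpace ℝ (Fin n)) 1)} (hA : MeasurableSet A) :
    sig n (rot g ⁻¹' A) = sig n A := by
  have hA' : MeasurableSet (rot g ⁻¹' A) := (rot_cont g).measurable hA
  unfold sig
  rw [Measure.toSphere_apply' _ hA, Measure.toSphere_apply' _ hA']
  congr 1
  have h1 : Ioo (0 : ℝ) 1 • ((↑) '' (rot g ⁻¹' A) : Set (EuclideanSpace ℝ (Fin n))) =
      g ⁻¹' (Ioo (0 : ℝ) 1 • ((↑) '' A : Set (EuclideanSpace ℝ (Fin n)))) := by
    ext y
    simp only [mem_preimage, Set.mem_smul, mem_image]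
    constructor
    · rintro ⟨r, hr, _, ⟨x, hx, rfl⟩, rfl⟩
      exact ⟨r, hr, _, ⟨rot g x, hx, rfl⟩, by simp [rot]⟩
    · rintro ⟨r, hr, _, ⟨x, hx, rfl⟩, h⟩
      refine ⟨r, hr, _, ⟨rot g.symm x, ?_, rfl⟩, ?_⟩
      · have : rot g (rot g.symm x) = x := by ext; simp [rot]
        show rot g (rot g.symm x) ∈ A
        rw [this]; exact hx
      · have h2 : g.symm (r • (x : EuclideanSpace ℝ (Fin n))) = y := by rw [h]; simp
        rw [← h2]; simp [rot]
  rw [h1]
  exact g.measurePreserving.measure_preimage_emb g.toHomeomorph.measurableEmbedding _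

noncomputable instance (n : ℕ) : MeasurableSpace (On n) := borel _
instance (n : ℕ) : BorelSpace (On n) := ⟨rfl⟩

/-- Haar probability on the orthogonal group -/
noncomputable def hOn (n : ℕ) : Measure (On n) :=
  Measure.haarMeasure (⊤ : TopologicalSpace.PositiveCompacts (On n))

instance (n : ℕ) : (hOn n).IsHaarMeasure := by unfold hOn; infer_instance

instance (n : ℕ) : IsProbabilityMeasure (hOn n) := by
  refine ⟨?_⟩
  have h := Measure.haarMeasure_self (G := On n) (K₀ := (⊤ : TopologicalSpace.PositiveCompacts (On n)))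
  simpa [hOn] using h

/-- inverse action, as a map of `(k, x)` -/
noncomputable def ract (k : On n) (x : sphere (0 : EuclideanSpace ℝ (Fin n)) 1) :
    sphere (0 : EuclideanSpace ℝ (Fin n)) 1 := rot (act n k⁻¹) x

theorem ract_cont : Continuous fun z : On n × sphere (0 : EuclideanSpace ℝ (Fin n)) 1 =>
    ract z.1 z.2 := by
  refine Continuous.subtype_mk ?_ _
  have h1 : (fun z : On n × sphere (0 : EuclideanSpace ℝ (Fin n)) 1 =>
      act n z.1⁻¹ (z.2 : EuclideanSpace ℝ (Fin n))) =
      fun z => ((z.1⁻¹ : On n) : EuclideanSpace ℝ (Fin n) →L[ℝ] EuclideanSpace ℝ (Fin n))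
        (z.2 : EuclideanSpace ℝ (Fin n)) := rfl
  show Continuous fun z : On n × sphere (0 : EuclideanSpace ℝ (Fin n)) 1 =>
      act n z.1⁻¹ (z.2 : EuclideanSpace ℝ (Fin n))
  rw [h1]
  exact (continuous_subtype_val.comp (continuous_fst.inv)).clm_apply
    (continuous_subtype_val.comp continuous_snd)

theorem const_h (E : Set (sphere (0 : EuclideanSpace ℝ (Fin n)) 1))
    (x x' : sphere (0 : EuclideanSpace ℝ (Fin n)) 1) :
    hOn n {k | ract k x' ∈ E} = hOn n {k | ract k x ∈ E} := by
  obtain ⟨g, hg⟩ := act_trans (x : EuclideanSpace ℝ (Fin n)) x' (by simp) (by simp)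
  have h1 : {k | ract k x' ∈ E} = (fun k => g⁻¹ * k) ⁻¹' {k | ract k x ∈ E} := by
    ext k
    simp only [mem_setOf_eq, mem_preimage]
    have h2 : ract k x' = ract (g⁻¹ * k) x := by
      ext1
      show act n k⁻¹ (x' : EuclideanSpace ℝ (Fin n)) = act n (g⁻¹ * k)⁻¹ (x : EuclideanSpace ℝ (Fin n))
      rw [← hg, mul_inv_rev, inv_inv, map_mul]
      rfl
    rw [h2]
  rw [h1, measure_preimage_mul]

theorem avg_eq {A E : Set (sphere (0 : EuclideanSpace ℝ (Fin n)) 1)} (hA : MeasurableSet A)
    (hE : MeasurableSet E) (hne : Nonempty (sphere (0 : EuclideanSpace ℝ (Fin n)) 1)) :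
    (∫⁻ k, sig n (A ∩ ract k ⁻¹' E) ∂(hOn n)) * sig n univ = sig n A * sig n E := by
  obtain ⟨x0⟩ := hne
  set W : Set (On n × sphere (0 : EuclideanSpace ℝ (Fin n)) 1) := {z | ract z.1 z.2 ∈ E} with hW
  have hWm : MeasurableSet W := ract_cont.measurable hE
  set c : ℝ≥0∞ := hOn n {k | ract k x0 ∈ E} with hc
  have key : ∀ B : Set (sphere (0 : EuclideanSpace ℝ (Fin n)) 1), MeasurableSet B →
      ∫⁻ k, sig n (B ∩ ract k ⁻¹' E) ∂(hOn n) = c * sig n B := by
    intro B hB
    have hm : MeasurableSet (W ∩ (univ ×ˢ B)) := hWm.inter (MeasurableSet.univ.prod hB)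
    have h1 := Measure.prod_apply (μ := hOn n) (ν := sig n) hm
    have h2 := Measure.prod_apply_symm (μ := hOn n) (ν := sig n) hm
    rw [h1] at h2
    have h3 : ∀ k : On n, (Prod.mk k ⁻¹' (W ∩ (univ ×ˢ B))) = B ∩ ract k ⁻¹' E := fun k => by
      ext x; simp [hW, and_comm]
    have h4 : ∀ x : sphere (0 : EuclideanSpace ℝ (Fin n)) 1,
        hOn n ((fun k => (k, x)) ⁻¹' (W ∩ (univ ×ˢ B))) = B.indicator (fun _ => c) x := fun x => by
      by_cases hx : x ∈ B
      · rw [indicator_of_mem hx, hc, ← const_h E x0 x]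
        congr 1
        ext k; simp [hW, hx]
      · rw [indicator_of_notMem hx]
        have : (fun k => (k, x)) ⁻¹' (W ∩ (univ ×ˢ B)) = (∅ : Set (On n)) := by
          ext k; simp [hx]
        rw [this]; simp
    simp only [h3, h4] at h2
    rw [h2, lintegral_indicator hB, setLIntegral_const]
  have h5 := key univ MeasurableSet.univ
  have h6 : ∀ k : On n, sig n (univ ∩ ract k ⁻¹' E) = sig n E := fun k => by
    rw [univ_inter]
    exact sig_rot (act n k⁻¹) hE
  simp only [h6, lintegral_const, measure_univ, mul_one] at h5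
  rw [key A hA, h5]
  ring

/-- one more rotate covers its share -/
theorem exists_step {A E : Set (sphere (0 : EuclideanSpace ℝ (Fin n)) 1)} (hA : MeasurableSet A)
    (hE : MeasurableSet E) (hne : Nonempty (sphere (0 : EuclideanSpace ℝ (Fin n)) 1)) :
    ∃ k : On n, sig n A * sig n E ≤ sig n (A ∩ ract k ⁻¹' E) * sig n univ := by
  have h1 := avg_eq hA hE hne
  by_contra hcon
  push Not at hcon
  rcases eq_or_ne (sig n univ) 0 with h0 | h0
  · have h2 := hcon 1
    rw [h0, mul_zero] at h2
    have h3 : sig n A = 0 := le_antisymm ((measure_mono (subset_univ A)).trans h0.le) bot_le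
    rw [h3, zero_mul] at h2
    exact lt_irrefl _ h2
  · have hfin : ∫⁻ k, sig n (A ∩ ract k ⁻¹' E) ∂(hOn n) ≠ ∞ := by
      refine ne_top_of_le_ne_top (measure_ne_top (sig n) univ) ?_
      calc ∫⁻ k, sig n (A ∩ ract k ⁻¹' E) ∂(hOn n) ≤ ∫⁻ k, sig n univ ∂(hOn n) :=
            lintegral_mono fun k => measure_mono (subset_univ _)
        _ = sig n univ := by simp
    obtain ⟨k, hk⟩ := exists_lintegral_le (μ := hOn n) hfin
    have h2 := hcon k
    have h3 : (∫⁻ k, sig n (A ∩ ract k ⁻¹' E) ∂(hOn n)) * sig n univ ≤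
        sig n (A ∩ ract k ⁻¹' E) * sig n univ := by gcongr
    rw [h1] at h3
    exact absurd (h3.trans_lt h2) (lt_irrefl _)

/-- real-valued measure of the sphere -/
theorem cover_list {E : Set (sphere (0 : EuclideanSpace ℝ (Fin n)) 1)} (hE : MeasurableSet E)
    (hne : Nonempty (sphere (0 : EuclideanSpace ℝ (Fin n)) 1)) (hs : sig n univ ≠ 0) (N : ℕ) :
    ∃ L : List (On n), L.length = N ∧
      (sig n {x | ∀ k ∈ L, ract k x ∉ E}).toReal ≤
        (sig n univ).toReal * (1 - (sig n E).toReal / (sig n univ).toReal) ^ N := by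
  have hs0 : 0 < (sig n univ).toReal := ENNReal.toReal_pos hs (measure_ne_top _ _)
  induction N with
  | zero => exact ⟨[], rfl, by simp⟩
  | succ N ih =>
    obtain ⟨L, hL, hLm⟩ := ih
    set A : Set (sphere (0 : EuclideanSpace ℝ (Fin n)) 1) := {x | ∀ k ∈ L, ract k x ∉ E} with hA
    have hmk : ∀ k : On n, MeasurableSet (ract k ⁻¹' E) := fun k => by
      have : Continuous (ract k : sphere (0 : EuclideanSpace ℝ (Fin n)) 1 → _) :=
        rot_cont (act n k⁻¹)
      exact this.measurable hE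
    have hAm : MeasurableSet A := by
      have : A = ⋂ k ∈ L, (ract k ⁻¹' E)ᶜ := by ext x; simp [hA]
      rw [this]
      exact MeasurableSet.biInter (List.finite_toSet L).countable fun k _ => (hmk k).compl
    obtain ⟨k, hk⟩ := exists_step hAm hE hne
    refine ⟨k :: L, by simp [hL], ?_⟩
    have h1 : {x | ∀ k' ∈ k :: L, ract k' x ∉ E} = A \ (ract k ⁻¹' E) := by
      ext x; simp [hA, and_comm]
    rw [h1]
    have h2 : (sig n (A \ ract k ⁻¹' E)).toReal =
        (sig n A).toReal - (sig n (A ∩ ract k ⁻¹' E)).toReal := by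
      have h3 := measure_inter_add_diff (μ := sig n) A (hmk k)
      have h4 : (sig n A).toReal = (sig n (A ∩ ract k ⁻¹' E)).toReal +
          (sig n (A \ ract k ⁻¹' E)).toReal := by
        rw [← h3, ENNReal.toReal_add (measure_ne_top _ _) (measure_ne_top _ _)]
      linarith
    have h5 : (sig n A).toReal * (sig n E).toReal ≤
        (sig n (A ∩ ract k ⁻¹' E)).toReal * (sig n univ).toReal := by
      rw [← ENNReal.toReal_mul, ← ENNReal.toReal_mul]
      exact ENNReal.toReal_mono (ENNReal.mul_ne_top (measure_ne_top _ _) (measure_ne_top _ _)) hk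
    rw [h2, pow_succ]
    have h6 : (sig n A).toReal * ((sig n E).toReal / (sig n univ).toReal) ≤
        (sig n (A ∩ ract k ⁻¹' E)).toReal := by
      rw [← mul_div_assoc, div_le_iff₀ hs0]; exact h5
    have h7 : 0 ≤ 1 - (sig n E).toReal / (sig n univ).toReal := by
      rw [sub_nonneg, div_le_one hs0]
      exact ENNReal.toReal_mono (measure_ne_top _ _) (measure_mono (subset_univ _))
    calc (sig n A).toReal - (sig n (A ∩ ract k ⁻¹' E)).toReal
        ≤ (sig n A).toReal * (1 - (sig n E).toReal / (sig n univ).toReal) := by linarith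
      _ ≤ ((sig n univ).toReal * (1 - (sig n E).toReal / (sig n univ).toReal) ^ N) *
          (1 - (sig n E).toReal / (sig n univ).toReal) := by gcongr
      _ = _ := by ring

end Pool.Agent.Helper184.KM
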