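import Pool.Agent.TH705.RR.On
import Pool.Agent.W131.HM.CapVol

/-!
Tubes and the Kakeya maximal function: invariance, volume, semicontinuity.
-/

open MeasureTheory Set Metric Filter
open scoped ENNReal NNReal Topology

namespace Pool.Agent.Helper184.KM

variable {n : ℕ}

/-- The closed cylinder of length `1` and radius `δ` with centre `a` and axis direction `e`. -/
def tube {n : ℕ} (δ : ℝ) (a e : EuclideanSpace ℝ (Fin n)) : Set (EuclideanSpace ℝ (Fin n)) :=
  {y | |inner ℝ (y - a) e| ≤ 1 / 2 ∧ ‖(y - a) - (inner ℝ (y - a) e : ℝ) • e‖ ≤ δ}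

/-- The open cylinder. -/
def otube {n : ℕ} (δ : ℝ) (a e : EuclideanSpace ℝ (Fin n)) : Set (EuclideanSpace ℝ (Fin n)) :=
  {y | |inner ℝ (y - a) e| < 1 / 2 ∧ ‖(y - a) - (inner ℝ (y - a) e : ℝ) • e‖ < δ}

/-- The Kakeya maximal function. -/
noncomputable def Mx {n : ℕ} (δ : ℝ) (f : EuclideanSpace ℝ (Fin n) → ℝ)
    (e : EuclideanSpace ℝ (Fin n)) : ℝ≥0∞ :=
  ⨆ a : EuclideanSpace ℝ (Fin n), (∫⁻ y in tube δ a e, ‖f y‖ₑ) / volume (tube δ a e)

theorem cont1 (a e : EuclideanSpace ℝ (Fin n)) :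
    Continuous fun y : EuclideanSpace ℝ (Fin n) => |(inner ℝ (y - a) e : ℝ)| := by fun_prop

theorem cont2 (a e : EuclideanSpace ℝ (Fin n)) :
    Continuous fun y : EuclideanSpace ℝ (Fin n) => ‖(y - a) - (inner ℝ (y - a) e : ℝ) • e‖ := by
  fun_prop

theorem tube_closed (δ : ℝ) (a e : EuclideanSpace ℝ (Fin n)) : IsClosed (tube δ a e) :=
  (isClosed_le (cont1 a e) continuous_const).inter (isClosed_le (cont2 a e) continuous_const)

theorem tube_meas (δ : ℝ) (a e : EuclideanSpace ℝ (Fin n)) : MeasurableSet (tube δ a e) :=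
  (tube_closed δ a e).measurableSet

theorem otube_open (δ : ℝ) (a e : EuclideanSpace ℝ (Fin n)) : IsOpen (otube δ a e) :=
  (isOpen_lt (cont1 a e) continuous_const).inter (isOpen_lt (cont2 a e) continuous_const)

theorem otube_sub (δ : ℝ) (a e : EuclideanSpace ℝ (Fin n)) : otube δ a e ⊆ tube δ a e :=
  fun _ hy => ⟨hy.1.le, hy.2.le⟩

theorem tube_convex (δ : ℝ) (a e : EuclideanSpace ℝ (Fin n)) : Convex ℝ (tube δ a e) := by
  intro x hx y hy s t hs ht hst
  have h0 : s • x + t • y - a = s • (x - a) + t • (y - a) := by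
    have : a = (s + t) • a := by rw [hst, one_smul]
    conv_lhs => rw [this]
    rw [add_smul, smul_sub, smul_sub]; abel
  have h1 : (inner ℝ (s • x + t • y - a) e : ℝ) = s * inner ℝ (x - a) e + t * inner ℝ (y - a) e := by
    rw [h0, inner_add_left, inner_smul_left, inner_smul_left]; simp
  constructor
  · rw [h1]
    calc |s * inner ℝ (x - a) e + t * inner ℝ (y - a) e|
        ≤ |s * inner ℝ (x - a) e| + |t * inner ℝ (y - a) e| := abs_add_le _ _
      _ = s * |inner ℝ (x - a) e| + t * |inner ℝ (y - a) e| := by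
          rw [abs_mul, abs_mul, abs_of_nonneg hs, abs_of_nonneg ht]
      _ ≤ s * (1 / 2) + t * (1 / 2) := by gcongr; exacts [hx.1, hy.1]
      _ = 1 / 2 := by rw [← add_mul, hst, one_mul]
  · have h2 : (s • x + t • y - a) - (inner ℝ (s • x + t • y - a) e : ℝ) • e =
        s • ((x - a) - (inner ℝ (x - a) e : ℝ) • e) + t • ((y - a) - (inner ℝ (y - a) e : ℝ) • e) := by
      rw [h1, h0, add_smul, smul_sub s (x - a) _, smul_sub t (y - a) _, smul_smul, smul_smul]
      abel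
    rw [h2]
    calc _ ≤ ‖s • ((x - a) - (inner ℝ (x - a) e : ℝ) • e)‖ +
          ‖t • ((y - a) - (inner ℝ (y - a) e : ℝ) • e)‖ := norm_add_le _ _
      _ = s * ‖(x - a) - (inner ℝ (x - a) e : ℝ) • e‖ + t * ‖(y - a) - (inner ℝ (y - a) e : ℝ) • e‖ := by
          rw [norm_smul, norm_smul, Real.norm_of_nonneg hs, Real.norm_of_nonneg ht]
      _ ≤ s * δ + t * δ := by gcongr; exacts [hx.2, hy.2]
      _ = δ := by rw [← add_mul, hst, one_mul]

theorem tube_diff_null {δ : ℝ} (hδ : 0 < δ) (a e : EuclideanSpace ℝ (Fin n)) :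
    volume (tube δ a e \ otube δ a e) = 0 := by
  refine measure_mono_null ?_ ((tube_convex δ a e).addHaar_frontier volume)
  rintro y ⟨hy, hyo⟩
  refine ⟨subset_closure hy, fun hint => hyo ?_⟩
  -- push outwards
  have hc : Continuous fun t : ℝ => a + (1 + t) • (y - a) := by fun_prop
  have h0 : a + (1 + (0 : ℝ)) • (y - a) = y := by simp
  have hev : ∀ᶠ t in 𝓝 (0 : ℝ), a + (1 + t) • (y - a) ∈ interior (tube δ a e) := by
    apply hc.continuousAt.eventually_mem
    rw [h0]; exact isOpen_interior.mem_nhds hint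
  obtain ⟨r, hr, hr'⟩ := Metric.eventually_nhds_iff.1 hev
  have hmem := interior_subset (hr' (y := r / 2) (by
    rw [Real.dist_eq, sub_zero, abs_of_pos (by positivity)]; linarith))
  have e0 : a + (1 + r / 2) • (y - a) - a = (1 + r / 2) • (y - a) := by abel
  have e1 : (inner ℝ (a + (1 + r / 2) • (y - a) - a) e : ℝ) = (1 + r / 2) * inner ℝ (y - a) e := by
    rw [e0, inner_smul_left]; simp
  obtain ⟨h1, h2⟩ := hmem
  rw [e1, abs_mul, abs_of_pos (by positivity)] at h1
  rw [e1, e0, ← smul_smul, ← smul_sub, norm_smul, Real.norm_of_nonneg (by positivity)] at h2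
  have p1 := abs_nonneg (inner ℝ (y - a) e : ℝ)
  have p2 := norm_nonneg ((y - a) - (inner ℝ (y - a) e : ℝ) • e)
  constructor
  · by_contra hcon
    rw [not_lt] at hcon
    nlinarith
  · by_contra hcon
    rw [not_lt] at hcon
    nlinarith

theorem lint_otube {δ : ℝ} (hδ : 0 < δ) (a e : EuclideanSpace ℝ (Fin n))
    (f : EuclideanSpace ℝ (Fin n) → ℝ) :
    ∫⁻ y in tube δ a e, ‖f y‖ₑ = ∫⁻ y in otube δ a e, ‖f y‖ₑ := by
  refine setLIntegral_congr ?_
  refine (ae_eq_set.2 ⟨tube_diff_null hδ a e, ?_⟩)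
  rw [sdiff_eq_empty.2 (otube_sub δ a e)]
  exact measure_empty

/-- invariance under isometries -/
theorem tube_iso (g : EuclideanSpace ℝ (Fin n) ≃ₗᵢ[ℝ] EuclideanSpace ℝ (Fin n)) (δ : ℝ)
    (a e : EuclideanSpace ℝ (Fin n)) : g ⁻¹' tube δ (g a) (g e) = tube δ a e := by
  ext y
  simp only [tube, mem_preimage, mem_setOf_eq]
  have h1 : (inner ℝ (g y - g a) (g e) : ℝ) = inner ℝ (y - a) e := by
    rw [← map_sub, LinearIsometryEquiv.inner_map_map]
  have h2 : ‖(g y - g a) - (inner ℝ (g y - g a) (g e) : ℝ) • g e‖ =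
      ‖(y - a) - (inner ℝ (y - a) e : ℝ) • e‖ := by
    rw [h1, ← map_sub, ← map_smul, ← map_sub, LinearIsometryEquiv.norm_map]
  rw [h2, h1]

theorem vol_tube_iso (g : EuclideanSpace ℝ (Fin n) ≃ₗᵢ[ℝ] EuclideanSpace ℝ (Fin n)) (δ : ℝ)
    (a e : EuclideanSpace ℝ (Fin n)) : volume (tube δ (g a) (g e)) = volume (tube δ a e) := by
  rw [← tube_iso g δ a e, g.measurePreserving.measure_preimage (tube_meas _ _ _).nullMeasurableSet]

theorem tube_trans (δ : ℝ) (a b e : EuclideanSpace ℝ (Fin n)) :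
    (fun y => b + y) ⁻¹' tube δ (b + a) e = tube δ a e := by
  ext y
  simp only [tube, mem_preimage, mem_setOf_eq]
  rw [add_sub_add_left_eq_sub]

theorem vol_tube_trans (δ : ℝ) (a b e : EuclideanSpace ℝ (Fin n)) :
    volume (tube δ (b + a) e) = volume (tube δ a e) := by
  rw [← tube_trans δ a b e, measure_preimage_add]

theorem vol_const (δ : ℝ) (a a' : EuclideanSpace ℝ (Fin n)) {e e' : EuclideanSpace ℝ (Fin n)}
    (he : ‖e‖ = 1) (he' : ‖e'‖ = 1) : volume (tube δ a e) = volume (tube δ a' e') := by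
  obtain ⟨k, hk⟩ := Pool.Agent.TH705.RR.act_trans e e' he he'
  have h0 : ∀ (b c : EuclideanSpace ℝ (Fin n)), volume (tube δ b c) = volume (tube δ 0 c) := by
    intro b c
    have := vol_tube_trans δ 0 b c
    rwa [add_zero] at this
  rw [h0 a, h0 a', ← hk]
  have := vol_tube_iso (Pool.Agent.TH705.RR.act n k) δ 0 e
  rw [map_zero] at this
  exact this.symm

theorem Mx_iso (g : EuclideanSpace ℝ (Fin n) ≃ₗᵢ[ℝ] EuclideanSpace ℝ (Fin n)) (δ : ℝ)
    (f : EuclideanSpace ℝ (Fin n) → ℝ) (e : EuclideanSpace ℝ (Fin n)) :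
    Mx δ (fun y => f (g.symm y)) (g e) = Mx δ f e := by
  unfold Mx
  rw [← g.surjective.iSup_comp]
  refine iSup_congr fun a => ?_
  rw [vol_tube_iso g δ a e]
  congr 1
  have h1 := g.measurePreserving.setLIntegral_comp_preimage_emb
    (g.toHomeomorph.measurableEmbedding) (fun y => ‖f (g.symm y)‖ₑ) (tube δ (g a) (g e))
  rw [← h1, tube_iso]
  simp

end Pool.Agent.Helper184.KM
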