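import Pool.Agent.Helper184.KM.Tube

/-!
Semicontinuity, volume doubling and elementary estimates for the Kakeya maximal function.
-/

open MeasureTheory Set Metric Filter
open scoped ENNReal NNReal Topology

namespace Pool.Agent.Helper184.KM

variable {n : ℕ}

theorem otube_dir_open (δ : ℝ) (a y : EuclideanSpace ℝ (Fin n)) :
    IsOpen {e : EuclideanSpace ℝ (Fin n) | y ∈ otube δ a e} := by
  have h1 : Continuous fun e : EuclideanSpace ℝ (Fin n) => |(inner ℝ (y - a) e : ℝ)| := by fun_prop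
  have h2 : Continuous fun e : EuclideanSpace ℝ (Fin n) =>
      ‖(y - a) - (inner ℝ (y - a) e : ℝ) • e‖ := by fun_prop
  exact (isOpen_lt h1 continuous_const).inter (isOpen_lt h2 continuous_const)

theorem Phi_lsc {δ : ℝ} (hδ : 0 < δ) (a : EuclideanSpace ℝ (Fin n))
    {f : EuclideanSpace ℝ (Fin n) → ℝ} (hf : AEMeasurable f volume) :
    LowerSemicontinuous fun e : EuclideanSpace ℝ (Fin n) => ∫⁻ y in tube δ a e, ‖f y‖ₑ := by
  rw [lowerSemicontinuous_iff_isOpen_preimage]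
  intro c
  rw [← isClosed_compl_iff]
  apply IsSeqClosed.isClosed
  intro u e hu hlim
  simp only [mem_compl_iff, mem_preimage, mem_Ioi, not_lt] at hu ⊢
  have hrep : ∀ e' : EuclideanSpace ℝ (Fin n), ∫⁻ y in tube δ a e', ‖f y‖ₑ =
      ∫⁻ y, (otube δ a e').indicator (fun y => ‖f y‖ₑ) y := fun e' => by
    rw [lint_otube hδ, lintegral_indicator (otube_open δ a e').measurableSet]
  rw [hrep]
  calc ∫⁻ y, (otube δ a e).indicator (fun y => ‖f y‖ₑ) y
      ≤ ∫⁻ y, liminf (fun i => (otube δ a (u i)).indicator (fun y => ‖f y‖ₑ) y) atTop := by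
        refine lintegral_mono fun y => ?_
        by_cases hy : y ∈ otube δ a e
        · have hev : ∀ᶠ i in atTop, y ∈ otube δ a (u i) :=
            hlim.eventually ((otube_dir_open δ a y).mem_nhds hy)
          rw [indicator_of_mem hy]
          refine le_liminf_of_le (by isBoundedDefault) ?_
          filter_upwards [hev] with i hi
          rw [indicator_of_mem hi]
        · rw [indicator_of_notMem hy]; exact bot_le
    _ ≤ liminf (fun i => ∫⁻ y, (otube δ a (u i)).indicator (fun y => ‖f y‖ₑ) y) atTop :=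
        lintegral_liminf_le' fun i => (hf.enorm).indicator (otube_open δ a (u i)).measurableSet
    _ ≤ c := by
        refine liminf_le_of_le (by isBoundedDefault) fun b hb => ?_
        obtain ⟨i, hi⟩ := hb.exists
        refine hi.trans ?_
        rw [← hrep]
        exact hu i

section vol

variable {d : ℕ}

/-- a unit vector -/
noncomputable def e0 (d : ℕ) : EuclideanSpace ℝ (Fin (d + 1)) := EuclideanSpace.single 0 1

theorem norm_e0 (d : ℕ) : ‖e0 d‖ = 1 := by simp [e0]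

/-- the volume of a tube -/
noncomputable def V (d : ℕ) (δ : ℝ) : ℝ≥0∞ := volume (tube δ 0 (e0 d))

theorem vol_eq (δ : ℝ) (a : EuclideanSpace ℝ (Fin (d + 1))) {e : EuclideanSpace ℝ (Fin (d + 1))}
    (he : ‖e‖ = 1) : volume (tube δ a e) = V d δ := vol_const δ a 0 he (norm_e0 d)

theorem exists_low (d : ℕ) : ∃ κ : ℝ, 0 < κ ∧ ∀ δ : ℝ, 0 < δ → δ ≤ 1 →
    ENNReal.ofReal (κ * δ ^ d) ≤ V d δ ∧ V d δ ≠ ∞ := by
  obtain ⟨κ, hκ, h⟩ := Pool.Agent.W131.HM.VOL d
  exact ⟨κ, hκ, fun δ h0 h1 => h 0 (e0 d) δ (norm_e0 d) h0 h1⟩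

theorem V_pos {δ : ℝ} (h0 : 0 < δ) (h1 : δ ≤ 1) : V d δ ≠ 0 := by
  obtain ⟨κ, hκ, h⟩ := exists_low d
  have := (h δ h0 h1).1
  refine (lt_of_lt_of_le (ENNReal.ofReal_pos.2 (by positivity)) this).ne'

theorem V_fin {δ : ℝ} (h0 : 0 < δ) (h1 : δ ≤ 1) : V d δ ≠ ∞ := by
  obtain ⟨κ, hκ, h⟩ := exists_low d
  exact (h δ h0 h1).2

theorem V_mono {δ δ' : ℝ} (h : δ ≤ δ') : V d δ ≤ V d δ' :=
  measure_mono fun _ hy => ⟨hy.1, hy.2.trans h⟩

/-- stretching by `2` orthogonally to `e0` -/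
noncomputable def stretch (d : ℕ) :
    EuclideanSpace ℝ (Fin (d + 1)) →ₗ[ℝ] EuclideanSpace ℝ (Fin (d + 1)) where
  toFun x := (2 : ℝ) • x - (inner ℝ x (e0 d) : ℝ) • e0 d
  map_add' x y := by rw [inner_add_left, add_smul, smul_add]; abel
  map_smul' c x := by
    rw [inner_smul_left]
    simp only [RingHom.id_apply, conj_trivial]
    rw [smul_sub, smul_smul, smul_smul, smul_smul, mul_comm]

theorem V_double (d : ℕ) : ∃ K : ℝ≥0, ∀ δ : ℝ, V d (2 * δ) ≤ K * V d δ := by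
  refine ⟨(|LinearMap.det (stretch d)|).toNNReal, fun δ => ?_⟩
  have h1 : tube (2 * δ) 0 (e0 d) ⊆ stretch d '' tube δ 0 (e0 d) := by
    intro y hy
    have hee : (inner ℝ (e0 d) (e0 d) : ℝ) = 1 := by
      rw [real_inner_self_eq_norm_sq, norm_e0]; norm_num
    set c : ℝ := inner ℝ y (e0 d) with hc
    have hx : (inner ℝ ((1 / 2 : ℝ) • y + (c / 2) • e0 d) (e0 d) : ℝ) = c := by
      rw [inner_add_left, inner_smul_left, inner_smul_left, hee]
      simp only [conj_trivial]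
      rw [← hc]; ring
    obtain ⟨hy1, hy2⟩ := hy
    rw [sub_zero] at hy1 hy2
    refine ⟨(1 / 2 : ℝ) • y + (c / 2) • e0 d, ⟨?_, ?_⟩, ?_⟩
    · rw [sub_zero, hx]; exact hy1
    · rw [sub_zero, hx]
      have h2 : (1 / 2 : ℝ) • y + (c / 2) • e0 d - c • e0 d = (1 / 2 : ℝ) • (y - c • e0 d) := by
        module
      rw [h2, norm_smul]
      have : ‖(1 / 2 : ℝ)‖ = 1 / 2 := by norm_num
      rw [this]; linarith
    · show (2 : ℝ) • ((1 / 2 : ℝ) • y + (c / 2) • e0 d) -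
        (inner ℝ ((1 / 2 : ℝ) • y + (c / 2) • e0 d) (e0 d) : ℝ) • e0 d = y
      rw [hx, smul_add, smul_smul, smul_smul]
      have : (2 : ℝ) * (1 / 2) = 1 := by norm_num
      rw [this, one_smul]
      have : (2 : ℝ) * (c / 2) = c := by ring
      rw [this]; abel
  calc V d (2 * δ) ≤ volume (stretch d '' tube δ 0 (e0 d)) := measure_mono h1
    _ = ENNReal.ofReal |LinearMap.det (stretch d)| * V d δ :=
        Measure.addHaar_image_linearMap volume _ _
    _ = _ := rfl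

end vol

section est

variable {d : ℕ}

theorem Mx_eq {δ : ℝ} (f : EuclideanSpace ℝ (Fin (d + 1)) → ℝ)
    {e : EuclideanSpace ℝ (Fin (d + 1))} (he : ‖e‖ = 1) :
    Mx δ f e = (⨆ a : EuclideanSpace ℝ (Fin (d + 1)), ∫⁻ y in tube δ a e, ‖f y‖ₑ) / V d δ := by
  unfold Mx
  rw [ENNReal.iSup_div]
  refine iSup_congr fun a => ?_
  rw [vol_eq δ a he]

theorem Mx_meas {δ : ℝ} (hδ : 0 < δ) {f : EuclideanSpace ℝ (Fin (d + 1)) → ℝ}
    (hf : AEMeasurable f volume) :
    Measurable fun e : sphere (0 : EuclideanSpace ℝ (Fin (d + 1))) 1 => Mx δ f e := by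
  have h1 : (fun e : sphere (0 : EuclideanSpace ℝ (Fin (d + 1))) 1 => Mx δ f e) =
      fun e : sphere (0 : EuclideanSpace ℝ (Fin (d + 1))) 1 =>
        (⨆ a : EuclideanSpace ℝ (Fin (d + 1)), ∫⁻ y in tube δ a (e : EuclideanSpace ℝ (Fin (d + 1))),
          ‖f y‖ₑ) / V d δ := by
    funext e
    exact Mx_eq f (by simp)
  rw [h1]
  have h2 : LowerSemicontinuous fun e : EuclideanSpace ℝ (Fin (d + 1)) =>
      ⨆ a : EuclideanSpace ℝ (Fin (d + 1)), ∫⁻ y in tube δ a e, ‖f y‖ₑ :=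
    lowerSemicontinuous_iSup fun a => Phi_lsc hδ a hf
  exact ((h2.measurable).comp measurable_subtype_coe).div_const _

theorem Mx_mono {δ : ℝ} {f g : EuclideanSpace ℝ (Fin n) → ℝ} (h : ∀ y, ‖f y‖ₑ ≤ ‖g y‖ₑ)
    (e : EuclideanSpace ℝ (Fin n)) : Mx δ f e ≤ Mx δ g e := by
  refine iSup_mono fun a => ?_
  gcongr with y
  exact h y

theorem Mx_congr {δ : ℝ} {f g : EuclideanSpace ℝ (Fin n) → ℝ} (h : f =ᵐ[volume] g)
    (e : EuclideanSpace ℝ (Fin n)) : Mx δ f e = Mx δ g e := by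
  refine iSup_congr fun a => ?_
  congr 1
  refine lintegral_congr_ae ?_
  filter_upwards [ae_restrict_of_ae h] with y hy
  rw [hy]

theorem Mx_add_le {δ : ℝ} {f g : EuclideanSpace ℝ (Fin n) → ℝ} (hf : AEMeasurable f volume)
    (e : EuclideanSpace ℝ (Fin n)) : Mx δ (fun y => f y + g y) e ≤ Mx δ f e + Mx δ g e := by
  refine iSup_le fun a => ?_
  calc (∫⁻ y in tube δ a e, ‖f y + g y‖ₑ) / volume (tube δ a e)
      ≤ (∫⁻ y in tube δ a e, (‖f y‖ₑ + ‖g y‖ₑ)) / volume (tube δ a e) := by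
        gcongr with y
        exact enorm_add_le _ _
    _ = (∫⁻ y in tube δ a e, ‖f y‖ₑ) / volume (tube δ a e) +
        (∫⁻ y in tube δ a e, ‖g y‖ₑ) / volume (tube δ a e) := by
        rw [lintegral_add_left' hf.enorm.restrict, ENNReal.add_div]
    _ ≤ Mx δ f e + Mx δ g e := by
        gcongr
        · exact le_iSup (fun a => (∫⁻ y in tube δ a e, ‖f y‖ₑ) / volume (tube δ a e)) a
        · exact le_iSup (fun a => (∫⁻ y in tube δ a e, ‖g y‖ₑ) / volume (tube δ a e)) a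

theorem Mx_bdd {δ : ℝ} {f : EuclideanSpace ℝ (Fin n) → ℝ} {H : ℝ≥0∞} (h : ∀ y, ‖f y‖ₑ ≤ H)
    (e : EuclideanSpace ℝ (Fin n)) : Mx δ f e ≤ H := by
  refine iSup_le fun a => ?_
  refine ENNReal.div_le_of_le_mul ?_
  calc ∫⁻ y in tube δ a e, ‖f y‖ₑ ≤ ∫⁻ y in tube δ a e, H := lintegral_mono fun y => h y
    _ = H * volume (tube δ a e) := by rw [setLIntegral_const]

theorem Mx_smul {δ : ℝ} (c : ℝ) (f : EuclideanSpace ℝ (Fin n) → ℝ)
    (e : EuclideanSpace ℝ (Fin n)) : Mx δ (fun y => c * f y) e = ‖c‖ₑ * Mx δ f e := by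
  unfold Mx
  rw [ENNReal.mul_iSup]
  refine iSup_congr fun a => ?_
  simp only [enorm_mul]
  rw [lintegral_const_mul' _ _ enorm_ne_top, mul_div_assoc]

/-- the factor in the Hölder bound -/
noncomputable def Bf (d : ℕ) (p δ : ℝ) : ℝ≥0∞ := V d δ ^ (1 - 1 / p) / V d δ

theorem Bf_fin {p δ : ℝ} (hp : 1 ≤ p) (h0 : 0 < δ) (h1 : δ ≤ 1) : Bf d p δ ≠ ∞ := by
  unfold Bf
  refine (ENNReal.div_lt_top ?_ (V_pos h0 h1)).ne
  refine ENNReal.rpow_ne_top_of_nonneg ?_ (V_fin h0 h1)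
  rw [sub_nonneg, div_le_one (by linarith)]
  exact hp

theorem Mx_holder {p δ : ℝ} (hp : 1 ≤ p) {f : EuclideanSpace ℝ (Fin (d + 1)) → ℝ}
    (hf : AEStronglyMeasurable f volume) {e : EuclideanSpace ℝ (Fin (d + 1))} (he : ‖e‖ = 1) :
    Mx δ f e ≤ eLpNorm f (ENNReal.ofReal p) volume * Bf d p δ := by
  unfold Mx
  refine iSup_le fun a => ?_
  rw [vol_eq δ a he]
  unfold Bf
  rw [← mul_div_assoc]
  gcongr
  have h1 := eLpNorm_le_eLpNorm_mul_rpow_measure_univ (μ := volume.restrict (tube δ a e))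
    (p := 1) (q := ENNReal.ofReal p) (f := f) (by simpa using hp) hf.restrict
  rw [eLpNorm_one_eq_lintegral_enorm, Measure.restrict_apply_univ, vol_eq δ a he,
    ENNReal.toReal_one, ENNReal.toReal_ofReal (by linarith), div_one] at h1
  refine h1.trans ?_
  gcongr
  exact Measure.restrict_le_self

end est

end Pool.Agent.Helper184.KM
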