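import Pool.Agent.Helper184.KM.Amp

/-!
From weak to strong bounds, from strong to weak bounds, and from weak bounds to finiteness
almost everywhere.
-/

open MeasureTheory Set Metric Filter
open scoped ENNReal NNReal Topology

namespace Pool.Agent.Helper184.KM

variable {d : ℕ}

/-- strong type bound with power weight -/
def Strong (d : ℕ) (γ p : ℝ) : Prop :=
  ∃ C : ℝ≥0, ∀ f : Eu d → ℝ, MemLp f (ENNReal.ofReal p) volume → ∀ δ : ℝ, 0 < δ → δ < 1 →
    (∫⁻ e, (Mx δ f (e : Eu d)) ^ p ∂(sig (d + 1))) ^ (1 / p) ≤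
      C * ENNReal.ofReal (δ ^ (-γ)) * eLpNorm f (ENNReal.ofReal p) volume

/-- the power weight -/
noncomputable def pw (γ δ : ℝ) : ℝ≥0∞ := ENNReal.ofReal (δ ^ γ)

theorem pw_le_one {γ δ : ℝ} (hγ : 0 ≤ γ) (h0 : 0 < δ) (h1 : δ < 1) : pw γ δ ≤ 1 := by
  unfold pw
  rw [ENNReal.ofReal_le_one]
  exact Real.rpow_le_one h0.le h1.le hγ

theorem pw_ne_top (γ δ : ℝ) : pw γ δ ≠ ∞ := ENNReal.ofReal_ne_top

theorem pw_pos {γ δ : ℝ} (h0 : 0 < δ) : pw γ δ ≠ 0 :=
  (ENNReal.ofReal_pos.2 (Real.rpow_pos_of_pos h0 γ)).ne'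

theorem pw_add {γ γ' δ : ℝ} (h0 : 0 < δ) : pw (γ + γ') δ = pw γ δ * pw γ' δ := by
  unfold pw
  rw [Real.rpow_add h0, ENNReal.ofReal_mul (by positivity)]

theorem pw_neg {γ δ : ℝ} (h0 : 0 < δ) : pw γ δ * pw (-γ) δ = 1 := by
  rw [← pw_add h0, add_neg_cancel]
  simp [pw]

/-- norms and integrals -/
theorem lint_eq {p : ℝ} (hp : 1 ≤ p) (f : Eu d → ℝ) :
    ∫⁻ y, ‖f y‖ₑ ^ p = (eLpNorm f (ENNReal.ofReal p) volume) ^ p := by
  have h0 : ENNReal.ofReal p ≠ 0 := (ENNReal.ofReal_pos.2 (by linarith)).ne'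
  rw [eLpNorm_eq_lintegral_rpow_enorm_toReal h0 ENNReal.ofReal_ne_top,
    ENNReal.toReal_ofReal (by linarith), ← ENNReal.rpow_mul]
  rw [one_div_mul_cancel (by linarith), ENNReal.rpow_one]

/-- the weak bound for general levels -/
theorem weak_level {p : ℝ} (hp : 1 ≤ p) {w : ℝ → ℝ≥0∞} {C : ℝ≥0}
    (hC : ∀ δ : ℝ, 0 < δ → δ < 1 → ∀ g : Eu d → ℝ, Measurable g →
      sig (d + 1) {e | 1 < w δ * Mx δ g (e : Eu d)} ≤ C * ∫⁻ y, ‖g y‖ₑ ^ p)
    {δ : ℝ} (h0 : 0 < δ) (h1 : δ < 1) {g : Eu d → ℝ} (hg : Measurable g) {t : ℝ} (ht : 0 < t) :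
    sig (d + 1) {e | ENNReal.ofReal t < w δ * Mx δ g (e : Eu d)} ≤
      C * (ENNReal.ofReal (t⁻¹) ^ p * ∫⁻ y, ‖g y‖ₑ ^ p) := by
  have h2 := hC δ h0 h1 (fun y => t⁻¹ * g y) (hg.const_mul _)
  have h3 : ∫⁻ y, ‖t⁻¹ * g y‖ₑ ^ p = ENNReal.ofReal (t⁻¹) ^ p * ∫⁻ y, ‖g y‖ₑ ^ p := by
    rw [← lintegral_const_mul _ (hg.enorm.pow_const p)]
    refine lintegral_congr fun y => ?_
    rw [enorm_mul, ENNReal.mul_rpow_of_nonneg _ _ (by linarith),
      Real.enorm_eq_ofReal (inv_pos.2 ht).le]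
  rw [h3] at h2
  refine le_trans (measure_mono ?_) h2
  intro e he
  have he' : ENNReal.ofReal t < w δ * Mx δ g (e : Eu d) := he
  show 1 < w δ * Mx δ (fun y => t⁻¹ * g y) (e : Eu d)
  rw [Mx_smul, Real.enorm_eq_ofReal (inv_pos.2 ht).le]
  have h4 : ENNReal.ofReal (t⁻¹) * ENNReal.ofReal t = 1 := by
    rw [← ENNReal.ofReal_mul (inv_pos.2 ht).le, inv_mul_cancel₀ ht.ne', ENNReal.ofReal_one]
  have h5 : w δ * (ENNReal.ofReal t⁻¹ * Mx δ g (e : Eu d)) =
      ENNReal.ofReal t⁻¹ * (w δ * Mx δ g (e : Eu d)) := by ring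
  rw [h5, ← h4]
  exact (ENNReal.mul_lt_mul_iff_right (ENNReal.ofReal_pos.2 (inv_pos.2 ht)).ne'
    ENNReal.ofReal_ne_top).2 he'

/-- layers -/
theorem layers {p : ℝ} (hp : 1 ≤ p) (z t : ℝ≥0∞) (J : ℕ) (h : z ≤ 2 ^ J * t) :
    z ^ p ≤ t ^ p + ∑ j ∈ Finset.range J,
      (2 ^ (j + 1) * t) ^ p * ({z' : ℝ≥0∞ | 2 ^ j * t < z'}.indicator (fun _ => 1) z) := by
  induction J with
  | zero =>
    rw [pow_zero, one_mul] at h
    simp only [Finset.range_zero, Finset.sum_empty, add_zero]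
    exact ENNReal.rpow_le_rpow h (by linarith)
  | succ J ih =>
    rw [Finset.sum_range_succ]
    by_cases hz : z ≤ 2 ^ J * t
    · refine (ih hz).trans ?_
      rw [← add_assoc]
      exact le_add_right le_rfl
    · rw [not_le] at hz
      rw [indicator_of_mem (s := {z' : ℝ≥0∞ | 2 ^ J * t < z'}) hz, mul_one, ← add_assoc]
      exact (ENNReal.rpow_le_rpow h (by linarith)).trans (le_add_left le_rfl)

theorem Bf_le {p δ : ℝ} (hp : 1 ≤ p) (h0 : 0 < δ) (h1 : δ ≤ 1) :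
    Bf d p δ ≤ 1 + (V d δ)⁻¹ := by
  unfold Bf
  have hV0 := V_pos (d := d) h0 h1
  have hV1 := V_fin (d := d) h0 h1
  have ha : 0 ≤ 1 - 1 / p := by
    rw [sub_nonneg, div_le_one (by linarith)]; exact hp
  have hb : 1 - 1 / p ≤ 1 := by
    have : 0 ≤ 1 / p := by positivity
    linarith
  have h2 : V d δ ^ (1 - 1 / p) ≤ 1 + V d δ := by
    rcases le_total (V d δ) 1 with h | h
    · exact (ENNReal.rpow_le_one h ha).trans (le_add_right le_rfl)
    · refine le_trans ?_ (le_add_left le_rfl)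
      calc V d δ ^ (1 - 1 / p) ≤ V d δ ^ (1 : ℝ) := ENNReal.rpow_le_rpow_of_exponent_le h hb
        _ = V d δ := ENNReal.rpow_one _
  calc V d δ ^ (1 - 1 / p) / V d δ ≤ (1 + V d δ) / V d δ := by gcongr
    _ = 1 + (V d δ)⁻¹ := by
        rw [ENNReal.add_div, ENNReal.div_self hV0 hV1, one_div, add_comm]

/-- the number of layers -/
theorem exists_J (d : ℕ) {p ε : ℝ} (hp : 1 ≤ p) (hε : 0 < ε) : ∃ K : ℝ, 0 < K ∧
    ∀ δ : ℝ, 0 < δ → δ < 1 → ∃ J : ℕ, Bf d p δ ≤ 2 ^ J ∧ (J : ℝ) ≤ K * δ ^ (-ε) := by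
  obtain ⟨κ, hκ, hlow⟩ := exists_low d
  set a : ℝ := Real.log (1 + κ⁻¹) with ha
  have ha0 : 0 ≤ a := Real.log_nonneg (by
    have : 0 < κ⁻¹ := inv_pos.2 hκ
    linarith)
  have hl2 : 0 < Real.log 2 := Real.log_pos (by norm_num)
  set K0 : ℝ := (a + d / ε) / Real.log 2 with hK0
  have hK00 : 0 ≤ K0 := by positivity
  refine ⟨K0 + 1, by positivity, fun δ h0 h1 => ⟨⌈K0 * δ ^ (-ε)⌉₊, ?_, ?_⟩⟩
  · have hV := (hlow δ h0 h1.le).1
    have hdp : 0 < κ * δ ^ d := by positivity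
    have h1e : 1 ≤ δ ^ (-ε) := by
      rw [Real.rpow_neg h0.le]
      exact (one_le_inv₀ (Real.rpow_pos_of_pos h0 ε)).2 (Real.rpow_le_one h0.le h1.le hε.le)
    have s1 : (1 + κ⁻¹) * (δ ^ d)⁻¹ ≤ (2 : ℝ) ^ ⌈K0 * δ ^ (-ε)⌉₊ := by
      have t1 : (1 + κ⁻¹) * (δ ^ d)⁻¹ = Real.exp (a + d * Real.log (δ⁻¹)) := by
        rw [Real.exp_add, ha, Real.exp_log (by positivity), Real.exp_nat_mul,
          Real.exp_log (inv_pos.2 h0), inv_pow]
      have t2 : (2 : ℝ) ^ ⌈K0 * δ ^ (-ε)⌉₊ = Real.exp (⌈K0 * δ ^ (-ε)⌉₊ * Real.log 2) := by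
        rw [Real.exp_nat_mul, Real.exp_log (by norm_num)]
      rw [t1, t2]
      refine Real.exp_le_exp.2 ?_
      have t3 : Real.log (δ⁻¹) ≤ (δ⁻¹) ^ ε / ε := Real.log_le_rpow_div (inv_pos.2 h0).le hε
      have t4 : (δ⁻¹ : ℝ) ^ ε = δ ^ (-ε) := by
        rw [Real.inv_rpow h0.le, Real.rpow_neg h0.le]
      rw [t4] at t3
      calc a + d * Real.log (δ⁻¹) ≤ a * δ ^ (-ε) + d * (δ ^ (-ε) / ε) := by
            gcongr
            exact le_mul_of_one_le_right ha0 h1e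
        _ = (K0 * δ ^ (-ε)) * Real.log 2 := by
            rw [hK0]; field_simp
        _ ≤ _ := by
            gcongr
            exact Nat.le_ceil _
    calc Bf d p δ ≤ 1 + (V d δ)⁻¹ := Bf_le hp h0 h1.le
      _ ≤ 1 + (ENNReal.ofReal (κ * δ ^ d))⁻¹ := by
          gcongr
      _ = ENNReal.ofReal (1 + (κ * δ ^ d)⁻¹) := by
          rw [ENNReal.ofReal_add zero_le_one (inv_pos.2 hdp).le, ENNReal.ofReal_one,
            ENNReal.ofReal_inv_of_pos hdp]
      _ ≤ ENNReal.ofReal ((1 + κ⁻¹) * (δ ^ d)⁻¹) := by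
          refine ENNReal.ofReal_le_ofReal ?_
          rw [mul_inv, add_mul, one_mul]
          gcongr
          exact (one_le_inv₀ (by positivity)).2 (pow_le_one₀ h0.le h1.le)
      _ ≤ ENNReal.ofReal ((2 : ℝ) ^ ⌈K0 * δ ^ (-ε)⌉₊) := ENNReal.ofReal_le_ofReal s1
      _ = 2 ^ ⌈K0 * δ ^ (-ε)⌉₊ := by
          rw [ENNReal.ofReal_pow (by norm_num)]; norm_num
  · have h1e : 1 ≤ δ ^ (-ε) := by
      rw [Real.rpow_neg h0.le]
      exact (one_le_inv₀ (Real.rpow_pos_of_pos h0 ε)).2 (Real.rpow_le_one h0.le h1.le hε.le)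
    have := Nat.ceil_lt_add_one (a := K0 * δ ^ (-ε)) (by positivity)
    rw [add_mul, one_mul]
    linarith

theorem strong_of_weak {p γ ε : ℝ} (hp : 1 ≤ p) (hγ : 0 ≤ γ) (hε : 0 < ε)
    (h : Weak d (pw γ) p) : Strong d (γ + ε) p := by
  obtain ⟨C, hC⟩ := h
  obtain ⟨K, hK0, hK⟩ := exists_J d hp hε
  set s : ℝ≥0 := (sig (d + 1) univ).toNNReal with hs
  have hs' : sig (d + 1) univ = s := (ENNReal.coe_toNNReal (measure_ne_top _ _)).symm
  have hp0 : 0 < p := by linarith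
  refine ⟨1 + s + K.toNNReal * 2 ^ p * C, ?_⟩
  intro f hf δ h0 h1
  -- measurable representative
  set g : Eu d → ℝ := hf.1.mk f with hg
  have hfg : f =ᵐ[volume] g := hf.1.ae_eq_mk
  have hgm : Measurable g := hf.1.stronglyMeasurable_mk.measurable
  have hM : ∀ e : sphere (0 : EuclideanSpace ℝ (Fin (d + 1))) 1,
      Mx δ f (e : Eu d) = Mx δ g (e : Eu d) := fun e => Mx_congr hfg _
  simp only [hM]
  rw [eLpNorm_congr_ae hfg]
  have hgL : MemLp g (ENNReal.ofReal p) volume := (memLp_congr_ae hfg).1 hf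
  set t : ℝ≥0∞ := eLpNorm g (ENNReal.ofReal p) volume with ht
  have htfin : t ≠ ∞ := hgL.2.ne
  have hhol : ∀ e : sphere (0 : EuclideanSpace ℝ (Fin (d + 1))) 1,
      Mx δ g (e : Eu d) ≤ t * Bf d p δ := fun e => Mx_holder hp hgL.1 (by simp)
  rcases eq_or_ne t 0 with ht0 | ht0
  · have hz : ∀ e : sphere (0 : EuclideanSpace ℝ (Fin (d + 1))) 1, Mx δ g (e : Eu d) = 0 := fun e => by
      have := hhol e
      rw [ht0, zero_mul] at this
      exact le_antisymm this bot_le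
    simp only [hz, ENNReal.zero_rpow_of_pos hp0, lintegral_zero]
    rw [ENNReal.zero_rpow_of_pos (by positivity)]
    exact bot_le
  obtain ⟨J, hJ1, hJ2⟩ := hK δ h0 h1
  set tr : ℝ := t.toReal with htr
  have htr0 : 0 < tr := ENNReal.toReal_pos ht0 htfin
  have htt : t = ENNReal.ofReal tr := (ENNReal.ofReal_toReal htfin).symm
  -- pointwise bound
  have hpt : ∀ e : sphere (0 : EuclideanSpace ℝ (Fin (d + 1))) 1,
      (pw γ δ * Mx δ g (e : Eu d)) ^ p ≤ t ^ p + ∑ j ∈ Finset.range J,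
        (2 ^ (j + 1) * t) ^ p * ({e' : sphere (0 : EuclideanSpace ℝ (Fin (d + 1))) 1 |
          2 ^ j * t < pw γ δ * Mx δ g (e' : Eu d)}.indicator (fun _ => 1) e) := fun e => by
    have hb : pw γ δ * Mx δ g (e : Eu d) ≤ 2 ^ J * t := by
      calc pw γ δ * Mx δ g (e : Eu d) ≤ 1 * (t * Bf d p δ) := by
            gcongr
            · exact pw_le_one hγ h0 h1
            · exact hhol e
        _ ≤ 1 * (t * 2 ^ J) := by gcongr
        _ = 2 ^ J * t := by ring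
    refine (layers hp _ t J hb).trans (le_of_eq ?_)
    congr 1
  have hmeas : Measurable fun e : sphere (0 : EuclideanSpace ℝ (Fin (d + 1))) 1 =>
      pw γ δ * Mx δ g (e : Eu d) := (Mx_meas h0 hgm.aemeasurable).const_mul _
  have hint : ∫⁻ e, (pw γ δ * Mx δ g (e : Eu d)) ^ p ∂(sig (d + 1)) ≤
      t ^ p * (s + J * (2 ^ p * C)) := by
    calc ∫⁻ e, (pw γ δ * Mx δ g (e : Eu d)) ^ p ∂(sig (d + 1))
        ≤ ∫⁻ e, (t ^ p + ∑ j ∈ Finset.range J,
        (2 ^ (j + 1) * t) ^ p * ({e' : sphere (0 : EuclideanSpace ℝ (Fin (d + 1))) 1 |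
          2 ^ j * t < pw γ δ * Mx δ g (e' : Eu d)}.indicator (fun _ => 1) e)) ∂(sig (d + 1)) :=
          lintegral_mono hpt
      _ = t ^ p * s + ∑ j ∈ Finset.range J, (2 ^ (j + 1) * t) ^ p *
          sig (d + 1) {e | 2 ^ j * t < pw γ δ * Mx δ g (e : Eu d)} := by
          rw [lintegral_add_left measurable_const, lintegral_const, hs',
            lintegral_finsetSum _ fun j _ => ?_]
          · congr 1
            refine Finset.sum_congr rfl fun j _ => ?_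
            have hmj : MeasurableSet {e : sphere (0 : EuclideanSpace ℝ (Fin (d + 1))) 1 |
                2 ^ j * t < pw γ δ * Mx δ g (e : Eu d)} :=
              measurableSet_lt measurable_const hmeas
            rw [lintegral_const_mul _ (measurable_const.indicator hmj),
              lintegral_indicator hmj, setLIntegral_const, one_mul]
          · have hmj : MeasurableSet {e : sphere (0 : EuclideanSpace ℝ (Fin (d + 1))) 1 |
                2 ^ j * t < pw γ δ * Mx δ g (e : Eu d)} :=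
              measurableSet_lt measurable_const hmeas
            exact (measurable_const.indicator hmj).const_mul _
      _ ≤ t ^ p * s + ∑ j ∈ Finset.range J, t ^ p * (2 ^ p * C) := by
          refine add_le_add le_rfl (Finset.sum_le_sum fun j _ => ?_)
          have hlev := weak_level hp hC h0 h1 hgm (t := 2 ^ j * tr) (by positivity)
          have e1 : ENNReal.ofReal (2 ^ j * tr) = 2 ^ j * t := by
            rw [ENNReal.ofReal_mul (by positivity), ← htt, ENNReal.ofReal_pow (by norm_num)]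
            norm_num
          rw [e1, lint_eq hp, ← ht] at hlev
          calc (2 ^ (j + 1) * t) ^ p * sig (d + 1) {e | 2 ^ j * t < pw γ δ * Mx δ g (e : Eu d)}
              ≤ (2 ^ (j + 1) * t) ^ p * (C * (ENNReal.ofReal (2 ^ j * tr)⁻¹ ^ p * t ^ p)) := by
                gcongr
            _ = ((2 ^ (j + 1) * t) * ENNReal.ofReal (2 ^ j * tr)⁻¹) ^ p * (t ^ p * C) := by
                rw [ENNReal.mul_rpow_of_nonneg (2 ^ (j + 1) * t) (ENNReal.ofReal (2 ^ j * tr)⁻¹)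
                  hp0.le]
                ring
            _ = 2 ^ p * (t ^ p * C) := by
                congr 2
                rw [ENNReal.ofReal_inv_of_pos (by positivity), e1, pow_succ]
                have hne : (2 : ℝ≥0∞) ^ j * t ≠ 0 := mul_ne_zero (by simp) ht0
                have hnt : (2 : ℝ≥0∞) ^ j * t ≠ ∞ := ENNReal.mul_ne_top (by finiteness) htfin
                calc (2 : ℝ≥0∞) ^ j * 2 * t * ((2 : ℝ≥0∞) ^ j * t)⁻¹
                    = 2 * (((2 : ℝ≥0∞) ^ j * t) * ((2 : ℝ≥0∞) ^ j * t)⁻¹) := by ring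
                  _ = 2 := by rw [ENNReal.mul_inv_cancel hne hnt, mul_one]
            _ = t ^ p * (2 ^ p * C) := by ring
      _ = t ^ p * (s + J * (2 ^ p * C)) := by
          rw [Finset.sum_const, Finset.card_range, nsmul_eq_mul]
          ring
  have hJC : (s : ℝ≥0∞) + J * (2 ^ p * C) ≤ pw (-ε) δ * (1 + s + K.toNNReal * 2 ^ p * C) := by
    have hone : 1 ≤ pw (-ε) δ := by
      unfold pw
      rw [ENNReal.one_le_ofReal, Real.rpow_neg h0.le]
      exact (one_le_inv₀ (Real.rpow_pos_of_pos h0 ε)).2 (Real.rpow_le_one h0.le h1.le hε.le)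
    have hJ' : (J : ℝ≥0∞) ≤ K.toNNReal * pw (-ε) δ := by
      have : (J : ℝ≥0∞) = ENNReal.ofReal (J : ℝ) := by simp
      rw [this]
      refine (ENNReal.ofReal_le_ofReal hJ2).trans (le_of_eq ?_)
      rw [ENNReal.ofReal_mul hK0.le]
      rfl
    calc (s : ℝ≥0∞) + J * (2 ^ p * C) ≤ 1 * s + (K.toNNReal * pw (-ε) δ) * (2 ^ p * C) := by
          rw [one_mul]; gcongr
      _ ≤ pw (-ε) δ * s + (K.toNNReal * pw (-ε) δ) * (2 ^ p * C) := by gcongr
      _ ≤ pw (-ε) δ * 1 + (pw (-ε) δ * s + (K.toNNReal * pw (-ε) δ) * (2 ^ p * C)) :=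
          le_add_left le_rfl
      _ = _ := by ring
  -- conclude
  set B : ℝ≥0∞ := 1 + s + K.toNNReal * 2 ^ p * C with hB
  have hcoe : ((1 + s + K.toNNReal * 2 ^ p * C : ℝ≥0) : ℝ≥0∞) = B := by
    rw [hB]
    push_cast
    rw [ENNReal.coe_rpow_of_nonneg _ hp0.le]
    norm_num
  rw [hcoe]
  have e2 : ∀ e : sphere (0 : EuclideanSpace ℝ (Fin (d + 1))) 1,
      (Mx δ g (e : Eu d)) ^ p = (pw (-γ) δ) ^ p * (pw γ δ * Mx δ g (e : Eu d)) ^ p := fun e => by
    rw [← ENNReal.mul_rpow_of_nonneg _ _ hp0.le, ← mul_assoc, mul_comm (pw (-γ) δ), pw_neg h0,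
      one_mul]
  simp only [e2]
  rw [lintegral_const_mul _ (hmeas.pow_const p)]
  calc ((pw (-γ) δ) ^ p * ∫⁻ e, (pw γ δ * Mx δ g (e : Eu d)) ^ p ∂(sig (d + 1))) ^ (1 / p)
      ≤ ((pw (-γ) δ) ^ p * (t ^ p * (pw (-ε) δ * B))) ^ (1 / p) := by
        gcongr
        refine hint.trans ?_
        gcongr
    _ = pw (-γ) δ * t * (pw (-ε) δ * B) ^ (1 / p) := by
        rw [← mul_assoc, ← ENNReal.mul_rpow_of_nonneg _ _ hp0.le,
          ENNReal.mul_rpow_of_nonneg _ _ (by positivity), ← ENNReal.rpow_mul,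
          mul_one_div_cancel hp0.ne', ENNReal.rpow_one]
    _ ≤ pw (-γ) δ * t * (pw (-ε) δ * B) := by
        gcongr
        have h1B : 1 ≤ pw (-ε) δ * B := by
          have hone : 1 ≤ pw (-ε) δ := by
            unfold pw
            rw [ENNReal.one_le_ofReal, Real.rpow_neg h0.le]
            exact (one_le_inv₀ (Real.rpow_pos_of_pos h0 ε)).2
              (Real.rpow_le_one h0.le h1.le hε.le)
          have hone' : 1 ≤ B := by
            rw [hB, add_assoc]; exact le_add_right le_rfl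
          exact one_le_mul hone hone'
        calc (pw (-ε) δ * B) ^ (1 / p) ≤ (pw (-ε) δ * B) ^ (1 : ℝ) :=
              ENNReal.rpow_le_rpow_of_exponent_le h1B (by
                rw [div_le_one hp0]; exact hp)
          _ = _ := ENNReal.rpow_one _
    _ = B * ENNReal.ofReal (δ ^ (-(γ + ε))) * t := by
        have : ENNReal.ofReal (δ ^ (-(γ + ε))) = pw (-γ) δ * pw (-ε) δ := by
          rw [← pw_add h0, neg_add]; rfl
        rw [this]; ring

theorem weak_of_strong {p γ : ℝ} (hp : 1 ≤ p) (h : Strong d γ p) : Weak d (pw γ) p := by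
  obtain ⟨C, hC⟩ := h
  have hp0 : 0 < p := by linarith
  refine ⟨C ^ p + 1, fun δ h0 h1 g hg => ?_⟩
  rcases eq_or_ne (eLpNorm g (ENNReal.ofReal p) volume) ∞ with hinf | hfin
  · rw [lint_eq hp, hinf, ENNReal.top_rpow_of_pos hp0, ENNReal.mul_top (by simp)]
    exact le_top
  have hgL : MemLp g (ENNReal.ofReal p) volume := ⟨hg.aestronglyMeasurable, hfin.lt_top⟩
  have h2 := hC g hgL δ h0 h1
  have hmeas : Measurable fun e : sphere (0 : EuclideanSpace ℝ (Fin (d + 1))) 1 =>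
      pw γ δ * Mx δ g (e : Eu d) := (Mx_meas h0 hg.aemeasurable).const_mul _
  have h3 : ∫⁻ e, (Mx δ g (e : Eu d)) ^ p ∂(sig (d + 1)) ≤
      (C * pw (-γ) δ * eLpNorm g (ENNReal.ofReal p) volume) ^ p := by
    have := ENNReal.rpow_le_rpow h2 hp0.le
    rwa [← ENNReal.rpow_mul, one_div_mul_cancel hp0.ne', ENNReal.rpow_one] at this
  have h4 : sig (d + 1) {e | 1 < pw γ δ * Mx δ g (e : Eu d)} ≤
      ∫⁻ e, (pw γ δ * Mx δ g (e : Eu d)) ^ p ∂(sig (d + 1)) := by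
    have h5 := mul_meas_ge_le_lintegral (μ := sig (d + 1)) (hmeas.pow_const p) 1
    rw [one_mul] at h5
    refine (measure_mono fun e he => ?_).trans h5
    have he' : 1 < pw γ δ * Mx δ g (e : Eu d) := he
    exact ENNReal.one_le_rpow he'.le hp0
  refine h4.trans ?_
  have h6 : ∫⁻ e, (pw γ δ * Mx δ g (e : Eu d)) ^ p ∂(sig (d + 1)) =
      (pw γ δ) ^ p * ∫⁻ e, (Mx δ g (e : Eu d)) ^ p ∂(sig (d + 1)) := by
    rw [← lintegral_const_mul _ ((Mx_meas h0 hg.aemeasurable).pow_const p)]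
    refine lintegral_congr fun e => ?_
    rw [ENNReal.mul_rpow_of_nonneg _ _ hp0.le]
  rw [h6, lint_eq hp]
  calc (pw γ δ) ^ p * ∫⁻ e, (Mx δ g (e : Eu d)) ^ p ∂(sig (d + 1))
      ≤ (pw γ δ) ^ p * (C * pw (-γ) δ * eLpNorm g (ENNReal.ofReal p) volume) ^ p := by gcongr
    _ = (C : ℝ≥0∞) ^ p * (eLpNorm g (ENNReal.ofReal p) volume) ^ p := by
        rw [← ENNReal.mul_rpow_of_nonneg _ _ hp0.le, ← ENNReal.mul_rpow_of_nonneg _ _ hp0.le]
        congr 1
        calc pw γ δ * (C * pw (-γ) δ * eLpNorm g (ENNReal.ofReal p) volume)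
            = (pw γ δ * pw (-γ) δ) * (C * eLpNorm g (ENNReal.ofReal p) volume) := by ring
          _ = _ := by rw [pw_neg h0, one_mul]
    _ ≤ ((C ^ p + 1 : ℝ≥0) : ℝ≥0∞) * (eLpNorm g (ENNReal.ofReal p) volume) ^ p := by
        gcongr
        push_cast
        rw [ENNReal.coe_rpow_of_nonneg _ hp0.le]
        exact le_add_right le_rfl

end Pool.Agent.Helper184.KM
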